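import Pool.Agent.K3h54.CP.Top

/-!
# Project CP: consecutive elements of the set of the primes and of the balanced products of two primes
-/

set_option autoImplicit false

open Finset Filter

namespace Pool.Agent.K3h54.CP

/-- `n` is a prime or a product `q q'` of two primes `q ≤ q' < q ^ 9` -/
def Bal (n : ℤ) : Prop := ∃ q : ℕ, q.Prime ∧
  (n = q ∨ ∃ q' : ℕ, q'.Prime ∧ q ≤ q' ∧ q' < q ^ 9 ∧ n = q * q')

/-- `m` and `n` are consecutive elements of `Bal` -/
def Consec (m n : ℤ) : Prop := Bal m ∧ Bal n ∧ ∀ l : ℤ, min m n < l → l < max m n → ¬ Bal l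

lemma adm_pair {h : ℤ} (h2 : 2 ∣ h) : Admissible {0, h} := by
  intro q hq
  have hq2 := hq.two_le
  rcases Nat.eq_or_lt_of_le hq2 with rfl | hq3
  · refine ⟨1, fun g hg => ?_⟩
    rw [mem_insert, mem_singleton] at hg
    rcases hg with rfl | rfl
    · norm_num
    · push_cast
      omega
  · by_cases h1 : (q : ℤ) ∣ 1 + h
    · refine ⟨2, fun g hg => ?_⟩
      rw [mem_insert, mem_singleton] at hg
      rcases hg with rfl | rfl
      · intro hd
        have := Int.le_of_dvd (by norm_num) hd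
        omega
      · intro hd
        have h3 := dvd_sub hd h1
        rw [show (2 + g - (1 + g) : ℤ) = 1 by ring] at h3
        have := Int.le_of_dvd (by norm_num) h3
        omega
    · refine ⟨1, fun g hg => ?_⟩
      rw [mem_insert, mem_singleton] at hg
      rcases hg with rfl | rfl
      · intro hd
        have := Int.le_of_dvd (by norm_num) hd
        omega
      · exact h1

/-- two large primes -/
lemma bal_of {X q q' : ℕ} (hX : 1 ≤ X) (hq : q.Prime) (hq' : q'.Prime)
    (h1 : (X : ℝ) ^ (1 / 9 : ℝ) < q) (h2 : (X : ℝ) ^ (1 / 9 : ℝ) < q')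
    (hn : (q : ℝ) * q' ≤ 2 * X) (h3 : (2 : ℝ) ≤ (X : ℝ) ^ (1 / 9 : ℝ)) : Bal ((q : ℤ) * q') := by
  have hXR : (0 : ℝ) ≤ X := Nat.cast_nonneg X
  have key : ∀ a b : ℕ, (X : ℝ) ^ (1 / 9 : ℝ) < a → (a : ℝ) * b ≤ 2 * X → (b : ℕ) < a ^ 9 := by
    intro a b ha hab
    have ha0 : (0 : ℝ) < a := by linarith
    have e : ((X : ℝ) ^ (1 / 9 : ℝ)) ^ 9 = X := by
      rw [← Real.rpow_natCast, ← Real.rpow_mul hXR]
      norm_num
    have h4 : (X : ℝ) < (a : ℝ) ^ 9 := by
      rw [← e]
      exact pow_lt_pow_left₀ ha (by positivity) (by norm_num)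
    have h5 : (2 : ℝ) ≤ a := by linarith
    have h6 : (b : ℝ) < (a : ℝ) ^ 9 := by
      have h7 : 2 * (b : ℝ) ≤ a * b := by
        have : (0 : ℝ) ≤ b := Nat.cast_nonneg b
        nlinarith
      linarith
    exact_mod_cast h6
  rcases le_total q q' with hle | hle
  · exact ⟨q, hq, Or.inr ⟨q', hq', hle, key q q' h1 hn, rfl⟩⟩
  · refine ⟨q', hq', Or.inr ⟨q, hq, hle, key q' q h2 (by linarith), by ring⟩⟩

/-- a balanced number has no small prime factor -/
lemma small_of {X T : ℕ} {n : ℤ} (hT : 40 ≤ T) (hX : 1 ≤ X) (hn : (X : ℝ) ^ (1 / 2 : ℝ) < 2 * n)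
    (h4 : (2 : ℝ) < (X : ℝ) ^ (1 / 40 : ℝ)) (h : Bal n) : Rg T X n := by
  have hX1 : (1 : ℝ) ≤ X := by exact_mod_cast hX
  have hX0 : (0 : ℝ) ≤ X := by linarith
  intro p hp hpX hd
  have hpX' : (p : ℝ) ≤ (X : ℝ) ^ (1 / 40 : ℝ) := by
    refine hpX.trans (Real.rpow_le_rpow_of_exponent_le hX1 ?_)
    apply one_div_le_one_div_of_le (by norm_num)
    exact_mod_cast hT
  set z : ℝ := (X : ℝ) ^ (1 / 40 : ℝ) with hz
  have e : (X : ℝ) ^ (1 / 2 : ℝ) = z ^ 20 := by
    rw [hz, ← Real.rpow_natCast, ← Real.rpow_mul hX0]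
    norm_num
  rw [e] at hn
  have hz1 : 1 ≤ z := by linarith
  obtain ⟨q, hq, hn1 | ⟨q', hq', hle, hlt, hn1⟩⟩ := h
  · rw [hn1] at hd hn
    have h1 : p ∣ q := by exact_mod_cast hd
    have h2 := (Nat.prime_dvd_prime_iff_eq hp hq).1 h1
    rw [← h2] at hn
    push_cast at hn
    have h3 : z * z ≤ z ^ 20 := by
      rw [← pow_two]
      exact pow_le_pow_right₀ hz1 (by norm_num)
    nlinarith
  · rw [hn1] at hd hn
    have h1 : p ∣ q * q' := by exact_mod_cast hd
    have h2 : q ≤ p := by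
      rcases (Nat.Prime.dvd_mul hp).1 h1 with h | h
      · exact ((Nat.prime_dvd_prime_iff_eq hp hq).1 h).ge
      · rw [(Nat.prime_dvd_prime_iff_eq hp hq').1 h]
        exact hle
    have h3 : (q : ℝ) ≤ z := (by exact_mod_cast h2 : (q : ℝ) ≤ p).trans hpX'
    have h5 : (q' : ℝ) < (q : ℝ) ^ 9 := by exact_mod_cast hlt
    have hq0 : (0 : ℝ) < q := by exact_mod_cast hq.pos
    push_cast at hn
    have h6 : (q : ℝ) * q' ≤ z ^ 10 := by
      calc (q : ℝ) * q' ≤ q * q ^ 9 := by gcongr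
        _ = (q : ℝ) ^ 10 := by ring
        _ ≤ z ^ 10 := by gcongr
    have h7 : z * z ^ 10 ≤ z ^ 20 := by
      rw [← pow_succ']
      exact pow_le_pow_right₀ hz1 (by norm_num)
    have h8 : (0 : ℝ) < z ^ 10 := by positivity
    nlinarith

/-- **Every even number is a gap between consecutive elements of `Bal`.** -/
theorem cons (hS : S_SUM) (hR : S_RAT) (hU : S_UB) (hL : S_LB) :
    ∃ c : ℝ, 0 < c ∧ ∀ θ : ℝ, 0 < θ → ∃ X₀ : ℕ, ∀ X : ℕ, X₀ ≤ X → ∀ h : ℤ, 2 ∣ h → h ≠ 0 →
      |(h : ℝ)| ≤ c * Real.log X → ∀ A B : ℕ, B ≤ X → θ * X ≤ (B : ℝ) - A →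
        c * ((B : ℝ) - A) / Real.log X ^ 2 ≤
          (Set.ncard {p : ℕ | A < p ∧ p ≤ B ∧ p.Prime ∧ Consec p (p + h)} : ℝ) := by
  classical
  obtain ⟨t, ht, H1', _⟩ := core hS hR hU hL 2
  set T := max t 40 with hT
  obtain ⟨c, hc, hc1, H1⟩ := H1' T (le_max_left _ _)
  refine ⟨c / 2, by positivity, fun θ hθ => ?_⟩
  obtain ⟨X1, hX13, hX1⟩ := H1 θ hθ
  obtain ⟨X2, hX23, hX2⟩ := growth 2 (c / 2 * θ) (by positivity)
  obtain ⟨X3, hX3⟩ := big 2 (by norm_num)
  have hX4 : ∃ X4 : ℕ, ∀ X : ℕ, X4 ≤ X → (3 : ℝ) ≤ (X : ℝ) ^ (1 / 40 : ℝ) := by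
    have h2 := (tendsto_rpow_atTop (show (0 : ℝ) < 1 / 40 by norm_num)).eventually
      (eventually_ge_atTop (3 : ℝ))
    have h3 := (tendsto_natCast_atTop_atTop (R := ℝ)).eventually h2
    rw [eventually_atTop] at h3
    exact h3
  obtain ⟨X4, hX4⟩ := hX4
  refine ⟨max (max X1 X2) (max X3 X4), ?_⟩
  intro X hX h h2 hne hhc A B hB hAB
  have hXa : X1 ≤ X := (le_max_left _ _).trans ((le_max_left _ _).trans hX)
  have hXb : X2 ≤ X := (le_max_right _ _).trans ((le_max_left _ _).trans hX)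
  have hXc : X3 ≤ X := (le_max_left _ _).trans ((le_max_right _ _).trans hX)
  have hXd : X4 ≤ X := (le_max_right _ _).trans ((le_max_right _ _).trans hX)
  have hX3' : 3 ≤ X := hX13.trans hXa
  have hX1' : 1 ≤ X := by omega
  have hXR : (3 : ℝ) ≤ X := by exact_mod_cast hX3'
  have hX0 : (0 : ℝ) < X := by linarith
  have hlog : 1 ≤ Real.log X := by
    rw [Real.le_log_iff_exp_le (by linarith)]
    exact Real.exp_one_lt_three.le.trans hXR
  have h40 := hX4 X hXd
  have hbig := hX3 X hXc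
  have hlogX : Real.log X ≤ X := (Real.log_le_sub_one_of_pos hX0).trans (by linarith)
  have hs : (X : ℝ) ^ (1 / (2 : ℕ) : ℝ) = √(X : ℝ) := by
    rw [Real.sqrt_eq_rpow]
    norm_num
  have hs' : (X : ℝ) ^ (1 / 2 : ℝ) = √(X : ℝ) := (Real.sqrt_eq_rpow _).symm
  rw [hs] at hbig
  -- the window
  set M : ℕ := h.natAbs with hM
  have hMr : (M : ℝ) = |(h : ℝ)| := by
    rw [hM, Nat.cast_natAbs, Int.cast_abs]
  have hcl : (M : ℝ) ≤ c / 2 * Real.log X := by rw [hMr]; exact hhc
  have hMc : (M : ℝ) ≤ c * Real.log X := by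
    have : 0 ≤ c * Real.log X := by positivity
    linarith
  have hMl : (M : ℝ) ≤ 1 / 2 * Real.log X := by
    nlinarith
  have hHM : ∀ g ∈ ({0, h} : Finset ℤ), |g| ≤ M := by
    intro g hg
    rw [mem_insert, mem_singleton] at hg
    rcases hg with rfl | rfl
    · simp
    · rw [hM, Int.abs_eq_natAbs]
  have hcard : ({0, h} : Finset ℤ).card = 2 := card_pair (Ne.symm hne)
  have hmain := (hX1 X hXa {0, h} (by simp) (by rw [hcard]) (Ad_of (adm_pair h2)) h (by simp) hne M
    hMc hHM A B hB hAB).1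
  rw [hcard] at hmain
  -- the members
  set S := SH t T X A B M {0, h} h with hSdef
  set F : Set ℕ := {p : ℕ | A < p ∧ p ≤ B ∧ p.Prime ∧ Consec p (p + h)} with hF
  have hFfin : F.Finite := (Set.finite_Icc 0 B).subset fun p hp => ⟨Nat.zero_le _, hp.2.1⟩
  have hsub : ∀ p ∈ S, √(X : ℝ) < p → p ∈ F := by
    intro p hp hpX
    have hp0 := hp
    rw [hSdef] at hp
    unfold SH at hp
    rw [mem_filter] at hp
    obtain ⟨hpG, hpw⟩ := hp
    have hpI := mem_Ioc.1 (GH_sub hpG)
    unfold GH Pool.Agent.R463.CG.G at hpG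
    rw [mem_filter] at hpG
    obtain ⟨_, hpp, hpXt, hne', hlen, hq1, _⟩ := hpG
    rw [one_mul] at hne' hlen
    simp only [one_mul] at hq1
    have hpB : (p : ℝ) ≤ X := by exact_mod_cast hpI.2.trans hB
    -- size of the numbers of the window
    have hwin : ∀ j : ℤ, |j| ≤ M → √(X : ℝ) < 2 * ((p : ℝ) + j) ∧ (p : ℝ) + j ≤ 2 * X := by
      intro j hj
      have h1 : ((|j| : ℤ) : ℝ) ≤ M := by exact_mod_cast hj
      rw [Int.cast_abs] at h1
      have h3 := abs_le.1 (h1.trans hMl)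
      constructor
      · linarith
      · linarith
    refine ⟨hpI.1, hpI.2, hpp, ⟨p, hpp, Or.inl rfl⟩, ?_, ?_⟩
    · -- `p + h`
      obtain ⟨w1, w2⟩ := hwin h (hHM h (by simp))
      have h1 : (0 : ℤ) < p + h := by
        have : (0 : ℝ) < (p : ℝ) + h := by
          have := Real.sqrt_nonneg (X : ℝ)
          linarith
        exact_mod_cast this
      obtain ⟨n, hn⟩ : ∃ n : ℕ, (p : ℤ) + h = n :=
        ⟨((p : ℤ) + h).toNat, (Int.toNat_of_nonneg (by omega)).symm⟩
      have hnR : (p : ℝ) + h = n := by exact_mod_cast hn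
      rw [hnR] at w1 w2
      rw [hn] at hlen hq1 h1 ⊢
      rw [Int.natAbs_natCast] at hlen
      have hprod := Nat.prod_primeFactorsList (show n ≠ 0 by omega)
      have hpr : ∀ q ∈ n.primeFactorsList, q.Prime ∧ (X : ℝ) ^ (1 / 9 : ℝ) < q := by
        intro q hq
        have h2 := Nat.prime_of_mem_primeFactorsList hq
        exact ⟨h2, (hq1 q h2 (by exact_mod_cast Nat.dvd_of_mem_primeFactorsList hq)).1⟩
      match hl : n.primeFactorsList with
      | [] =>
        rw [hl] at hprod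
        simp at hprod
        rw [← hprod] at w1
        have h5 : (3 : ℝ) ≤ √(X : ℝ) := by
          rw [Real.sqrt_eq_rpow]
          refine h40.trans (Real.rpow_le_rpow_of_exponent_le (by linarith) (by norm_num))
        push_cast at w1
        linarith
      | [a] =>
        rw [hl] at hprod hpr
        have : n = a := by simpa using hprod.symm
        exact ⟨a, (hpr a (by simp)).1, Or.inl (by rw [this])⟩
      | [a, b] =>
        rw [hl] at hprod hpr
        have hnab : n = a * b := by simpa using hprod.symm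
        rw [hnab]
        push_cast
        refine bal_of hX1' (hpr a (by simp)).1 (hpr b (by simp)).1 (hpr a (by simp)).2
          (hpr b (by simp)).2 ?_ ?_
        · rw [hnab] at w2
          push_cast at w2
          exact w2
        · refine le_trans (by linarith : (2 : ℝ) ≤ (X : ℝ) ^ (1 / 40 : ℝ)) ?_
          exact Real.rpow_le_rpow_of_exponent_le (by linarith) (by norm_num)
      | a :: b :: d :: l =>
        rw [hl] at hlen
        simp at hlen
    · -- the numbers between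
      intro l hl1 hl2 hbal
      have hj : ∃ j : ℤ, l = p + j ∧ |j| < M ∧ j ≠ 0 ∧ j ≠ h := by
        refine ⟨l - p, by ring, ?_, ?_, ?_⟩
        · rw [hM, ← Int.abs_eq_natAbs, abs_lt]
          rcases le_total 0 h with h0 | h0
          · rw [abs_of_nonneg h0]
            rw [min_eq_left (by omega)] at hl1
            rw [max_eq_right (by omega)] at hl2
            constructor <;> omega
          · rw [abs_of_nonpos h0]
            rw [min_eq_right (by omega)] at hl1
            rw [max_eq_left (by omega)] at hl2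
            constructor <;> omega
        · rintro h0
          rcases le_total 0 h with h1 | h1
          · rw [min_eq_left (by omega)] at hl1
            omega
          · rw [max_eq_left (by omega)] at hl2
            omega
        · rintro h0
          rcases le_total 0 h with h1 | h1
          · rw [max_eq_right (by omega)] at hl2
            omega
          · rw [min_eq_right (by omega)] at hl1
            omega
      obtain ⟨j, rfl, hjM, hj0, hjh⟩ := hj
      obtain ⟨w1, w2⟩ := hwin j hjM.le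
      have hrg : Rg T X (p + j) := by
        refine small_of (le_max_right _ _) hX1' ?_ (by linarith) hbal
        push_cast
        rw [hs']
        exact w1
      have := hpw j hjM.le hrg
      rw [mem_insert, mem_singleton] at this
      rcases this with h | h
      · exact hj0 h
      · exact hjh h
  -- count
  have hcount : (S.card : ℝ) ≤ (F.ncard : ℝ) + (√(X : ℝ) + 1) := by
    have h1 : (S : Set ℕ) ⊆ F ∪ (Icc 0 ⌊√(X : ℝ)⌋₊ : Finset ℕ) := by
      intro p hp
      by_cases hpX : √(X : ℝ) < p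
      · exact Or.inl (hsub p hp hpX)
      · right
        push Not at hpX
        rw [coe_Icc]
        exact ⟨Nat.zero_le _, Nat.le_floor hpX⟩
    have h3 := Set.ncard_le_ncard h1 (hFfin.union (finite_toSet _))
    have h4 := Set.ncard_union_le F ((Icc 0 ⌊√(X : ℝ)⌋₊ : Finset ℕ) : Set ℕ)
    rw [Set.ncard_coe_finset] at h3 h4
    rw [Nat.card_Icc] at h4
    have h5 : S.card ≤ F.ncard + (⌊√(X : ℝ)⌋₊ + 1) := by omega
    have h6 : (S.card : ℝ) ≤ F.ncard + ((⌊√(X : ℝ)⌋₊ : ℕ) + 1) := by exact_mod_cast h5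
    have h7 : ((⌊√(X : ℝ)⌋₊ : ℕ) : ℝ) ≤ √(X : ℝ) := Nat.floor_le (Real.sqrt_nonneg _)
    linarith
  have hsm : √(X : ℝ) + 1 ≤ c / 2 * ((B : ℝ) - A) / Real.log X ^ 2 := by
    have h1 := hX2 X hXb
    rw [le_div_iff₀ (by positivity)]
    have h3 : (1 : ℝ) ≤ √(X : ℝ) := by
      rw [Real.le_sqrt (by norm_num) (by linarith)]
      linarith
    have h4 : (√(X : ℝ) + 1) * Real.log X ^ 2 ≤ (2 * Real.log X + 2) * √(X : ℝ) * Real.log X ^ 2 := by
      gcongr
      nlinarith
    have h5 : c / 2 * θ * X ≤ c / 2 * ((B : ℝ) - A) := by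
      rw [mul_assoc]
      gcongr
    linarith
  have e : c * ((B : ℝ) - A) / Real.log X ^ 2 =
      c / 2 * ((B : ℝ) - A) / Real.log X ^ 2 + c / 2 * ((B : ℝ) - A) / Real.log X ^ 2 := by ring
  linarith

end Pool.Agent.K3h54.CP
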