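import Mathlib

/-!
# Project CP: patterns of consecutive rough numbers with a prime and a product of two primes
-/

set_option autoImplicit false

open Finset

namespace Pool.Agent.K3h54.CP

/-- the number of the residues `m` modulo `q` such that `q` divides `m + g` for some `g ∈ H` -/
def om (H : Finset ℤ) (q : ℕ) : ℕ := ((range q).filter (fun m : ℕ => ∃ g ∈ H, (q : ℤ) ∣ m + g)).card

/-- admissible -/
def Ad (H : Finset ℤ) : Prop := ∀ q : ℕ, q.Prime → om H q < q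

/-- the sieve product over the primes `z < q ≤ y` -/
noncomputable def VP (H : Finset ℤ) (z y : ℕ) : ℝ :=
  ∏ q ∈ (Ioc z y).filter Nat.Prime, (1 - (om H q : ℝ) / q)

/-- no prime factor `≤ X ^ (1/t)` -/
def Rg (t X : ℕ) (n : ℤ) : Prop :=
  ∀ q : ℕ, q.Prime → (q : ℝ) ≤ (X : ℝ) ^ (1 / (t : ℝ)) → ¬ (q : ℤ) ∣ n

/-- the weight `∏ (1 + K / p)` over the primes dividing `n` -/
noncomputable def hK (K : ℕ) (n : ℤ) : ℝ := ∏ p ∈ n.natAbs.primeFactors, (1 + (K : ℝ) / p)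

/-- (SUM) the weights of the differences `j - g`, `g ∈ H`, are bounded on average over `|j| ≤ M` -/
def S_SUM : Prop := ∀ r : ℕ, ∃ C : ℝ, 0 < C ∧ ∀ M : ℕ, ∀ H : Finset ℤ, 0 ∈ H → H.card ≤ r →
  (∀ g ∈ H, |g| ≤ M) → ∑ j ∈ Icc (-(M : ℤ)) M \ H, ∏ g ∈ H, hK 2 (j - g) ≤ C * M

/-- (RAT) the sieve product of `H ∪ {j}` -/
def S_RAT : Prop := ∀ r K z : ℕ, ∃ C : ℝ, 0 < C ∧ ∃ X₀ : ℕ, ∀ X : ℕ, X₀ ≤ X →
  ∀ y : ℕ, y ≤ X → X ≤ y ^ K → ∀ H : Finset ℤ, H.card ≤ r → Ad H →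
    VP H z y ≤ C * VP H 0 X ∧
    ∀ j : ℤ, j ∉ H → VP (insert j H) z y ≤ C / Real.log X * VP H 0 X * ∏ g ∈ H, hK 2 (j - g)

open Classical in
/-- (UB) the upper bound sieve -/
def S_UB : Prop := ∀ r t : ℕ, 1 ≤ t → ∃ z K X₀ : ℕ, ∀ X : ℕ, X₀ ≤ X →
  ∃ y : ℕ, y ≤ X ∧ X ≤ y ^ K ∧ ∀ A B : ℕ, B ≤ X → √(X : ℝ) ≤ (B : ℝ) - A → ∀ H : Finset ℤ, H.card ≤ r →
    (((Ioc A B).filter (fun n : ℕ => ∀ g ∈ H, Rg t X (n + g))).card : ℝ) ≤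
      2 * (((B : ℝ) - A) * VP H z y) + √(X : ℝ)

/-- (LB) the order of magnitude of the sieve product, lower bound -/
def S_LB : Prop := ∀ r : ℕ, ∃ c : ℝ, 0 < c ∧ ∃ X₀ : ℕ, ∀ X : ℕ, X₀ ≤ X →
  ∀ H : Finset ℤ, H.card ≤ r → Ad H → c / Real.log X ^ H.card ≤ VP H 0 X

end Pool.Agent.K3h54.CP
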