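import Pool.Agent.R463.ChenG
import Pool.Agent.K3h54.CP.Stm

/-!
# Project CP: the theorem
-/

set_option autoImplicit false

open Finset Filter

namespace Pool.Agent.K3h54.CP

open Pool.Agent.R463.CG (nu Sys V G chen)

/-- the classes -/
def FH (H : Finset ℤ) (h : ℤ) (_q : ℕ) : Finset ℤ := ((H.erase 0).erase h).image (fun g => -g)

lemma nu_eq {H : Finset ℤ} {h : ℤ} (h0 : 0 ∈ H) (hh : h ∈ H) (q : ℕ) : nu 1 h (FH H h) q = om H q := by
  classical
  unfold nu om
  congr 1
  apply filter_congr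
  intro m _
  constructor
  · rintro (h1 | h1 | ⟨a, ha, h1⟩)
    · exact ⟨0, h0, by simpa using h1⟩
    · exact ⟨h, hh, by simpa using h1⟩
    · unfold FH at ha
      rw [mem_image] at ha
      obtain ⟨g, hg, rfl⟩ := ha
      refine ⟨g, mem_of_mem_erase (mem_of_mem_erase hg), ?_⟩
      simpa using h1
  · rintro ⟨g, hg, h1⟩
    by_cases hg0 : g = 0
    · left
      subst hg0
      simpa using h1
    by_cases hgh : g = h
    · right; left
      subst hgh
      simpa using h1
    · right; right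
      refine ⟨-g, ?_, by simpa using h1⟩
      unfold FH
      exact mem_image_of_mem _ (mem_erase.2 ⟨hgh, mem_erase.2 ⟨hg0, hg⟩⟩)

lemma sys_H {r : ℕ} {H : Finset ℤ} {h : ℤ} (h0 : 0 ∈ H) (hh : h ∈ H) (hr : H.card ≤ r) (hA : Ad H) :
    Sys r 1 h (FH H h) := by
  intro q hq
  refine ⟨?_, ?_⟩
  · unfold FH
    refine card_image_le.trans ((card_le_card (erase_subset _ _)).trans
      ((card_le_card (erase_subset _ _)).trans hr))
  · rw [nu_eq h0 hh]
    exact hA q hq

lemma V_eq {H : Finset ℤ} {h : ℤ} (h0 : 0 ∈ H) (hh : h ∈ H) (X : ℕ) : V 1 h (FH H h) X = VP H 0 X := by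
  unfold V VP
  have e : (Icc 1 X).filter Nat.Prime = (Ioc 0 X).filter Nat.Prime := by
    congr 1
  rw [e]
  exact prod_congr rfl fun q _ => by rw [nu_eq h0 hh]

open Classical in
/-- the primes before the removal -/
noncomputable def GH (t X A B : ℕ) (H : Finset ℤ) (h : ℤ) : Finset ℕ := G 1 h t X A B (FH H h)

lemma GH_rough {t X A B : ℕ} {H : Finset ℤ} {h : ℤ} {p : ℕ} (hp : p ∈ GH t X A B H h) :
    ∀ g ∈ H, Rg t X (p + g) := by
  classical
  unfold GH G at hp
  rw [mem_filter] at hp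
  obtain ⟨_, hpp, hpX, _, _, h5, h6⟩ := hp
  intro g hg q hq hqX hd
  by_cases hg0 : g = 0
  · subst hg0
    rw [add_zero] at hd
    have h1 : q ∣ p := by exact_mod_cast hd
    have h2 := (Nat.prime_dvd_prime_iff_eq hq hpp).1 h1
    subst h2
    linarith
  by_cases hgh : g = h
  · subst hgh
    have := (h5 q hq (by simpa using hd)).2
    linarith
  · refine h6 q hq hqX (-g) ?_ (by simpa using hd)
    unfold FH
    exact mem_image_of_mem _ (mem_erase.2 ⟨hgh, mem_erase.2 ⟨hg0, hg⟩⟩)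

lemma GH_sub {t X A B : ℕ} {H : Finset ℤ} {h : ℤ} : GH t X A B H h ⊆ Ioc A B := by
  classical
  unfold GH G
  exact filter_subset _ _

open Classical in
/-- the primes that remain -/
noncomputable def SH (t T X A B M : ℕ) (H : Finset ℤ) (h : ℤ) : Finset ℕ :=
  (GH t X A B H h).filter (fun p : ℕ => ∀ j : ℤ, |j| ≤ M → Rg T X (p + j) → j ∈ H)

lemma pow_mono {t T X : ℕ} (ht : 1 ≤ t) (hT : t ≤ T) (hX : 1 ≤ X) :
    (X : ℝ) ^ (1 / (T : ℝ)) ≤ (X : ℝ) ^ (1 / (t : ℝ)) := by
  apply Real.rpow_le_rpow_of_exponent_le (by exact_mod_cast hX)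
  apply one_div_le_one_div_of_le (by exact_mod_cast ht)
  exact_mod_cast hT

lemma Rg_mono {t T X : ℕ} {n : ℤ} (ht : 1 ≤ t) (hT : t ≤ T) (hX : 1 ≤ X) (h : Rg t X n) : Rg T X n :=
  fun q hq hqX => h q hq (hqX.trans (pow_mono ht hT hX))

lemma growth (r : ℕ) (a : ℝ) (ha : 0 < a) : ∃ X₀ : ℕ, 3 ≤ X₀ ∧ ∀ X : ℕ, X₀ ≤ X →
    (2 * Real.log X + 2) * √(X : ℝ) * Real.log X ^ r ≤ a * X := by
  have h1 : (fun x : ℝ => Real.log x ^ (r + 1)) =o[atTop] (fun x : ℝ => x ^ (1 / 2 : ℝ)) := by
    have := isLittleO_log_rpow_rpow_atTop ((r + 1 : ℕ) : ℝ) (show (0 : ℝ) < 1 / 2 by norm_num)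
    simpa only [Real.rpow_natCast] using this
  have h2 := h1.bound (show (0 : ℝ) < a / 4 by positivity)
  have h3 := (tendsto_natCast_atTop_atTop (R := ℝ)).eventually h2
  rw [eventually_atTop] at h3
  obtain ⟨X1, hX1⟩ := h3
  refine ⟨max X1 3, le_max_right _ _, fun X hX => ?_⟩
  have hX3 : 3 ≤ X := (le_max_right _ _).trans hX
  have hXR : (3 : ℝ) ≤ X := by exact_mod_cast hX3
  have hX0 : (0 : ℝ) ≤ X := by linarith
  have hlog : 1 ≤ Real.log X := by
    rw [Real.le_log_iff_exp_le (by linarith)]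
    exact Real.exp_one_lt_three.le.trans hXR
  have h4 := hX1 X ((le_max_left _ _).trans hX)
  rw [Real.norm_of_nonneg (by positivity), Real.norm_of_nonneg (by positivity),
    ← Real.sqrt_eq_rpow] at h4
  have hs : 0 ≤ √(X : ℝ) := Real.sqrt_nonneg _
  calc (2 * Real.log X + 2) * √(X : ℝ) * Real.log X ^ r
      ≤ (4 * Real.log X) * √(X : ℝ) * Real.log X ^ r := by
        gcongr
        linarith
    _ = 4 * Real.log X ^ (r + 1) * √(X : ℝ) := by ring
    _ ≤ 4 * (a / 4 * √(X : ℝ)) * √(X : ℝ) := by gcongr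
    _ = a * X := by
        rw [show 4 * (a / 4 * √(X : ℝ)) * √(X : ℝ) = a * (√(X : ℝ) * √(X : ℝ)) by ring,
          Real.mul_self_sqrt hX0]

/-- **The core estimates** -/
theorem core (hS : S_SUM) (hR : S_RAT) (hU : S_UB) (hL : S_LB) (r : ℕ) :
    ∃ t : ℕ, 1 ≤ t ∧
    (∀ T : ℕ, t ≤ T → ∃ c : ℝ, 0 < c ∧ c ≤ 1 ∧
    ∀ θ : ℝ, 0 < θ → ∃ X₀ : ℕ, 3 ≤ X₀ ∧ ∀ X : ℕ, X₀ ≤ X → ∀ H : Finset ℤ, 0 ∈ H → H.card ≤ r → Ad H →
      ∀ h ∈ H, h ≠ 0 → ∀ M : ℕ, (M : ℝ) ≤ c * Real.log X → (∀ g ∈ H, |g| ≤ M) →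
      ∀ A B : ℕ, B ≤ X → θ * X ≤ (B : ℝ) - A →
        c * ((B : ℝ) - A) / Real.log X ^ H.card ≤ ((SH t T X A B M H h).card : ℝ) ∧
        c * ((GH t X A B H h).card : ℝ) ≤ ((SH t T X A B M H h).card : ℝ)) ∧
    (∀ k : ℕ, ∀ θ δ : ℝ, 0 < θ → 0 < δ → ∃ D X₀ : ℕ, ∀ X : ℕ, X₀ ≤ X → ∀ H : Finset ℤ, 0 ∈ H →
      H.card ≤ r → Ad H → ∀ h ∈ H, h ≠ 0 → |h| ≤ X → ∀ A B : ℕ, B ≤ X → θ * X ≤ (B : ℝ) - A →
      ∀ S : Finset ℕ, S ⊆ GH t X A B H h → δ * ((GH t X A B H h).card : ℝ) ≤ S.card →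
        ∃ a d : ℕ, 1 ≤ d ∧ (d : ℝ) ≤ Real.log X ^ D ∧ ∀ j < k, a + j * d ∈ S) := by
  classical
  obtain ⟨t, ht, c0, hc0, H1, H2⟩ := chen 1 (by norm_num) r
  refine ⟨t, ht, fun T hT => ?_, ?_⟩
  swap
  · intro k θ δ hθ hδ
    obtain ⟨D, X₀, hD⟩ := H2 k θ δ hθ hδ
    refine ⟨D, X₀, ?_⟩
    intro X hX H h0 hr hA h hh hhne hhX A B hB hAB S hS hSc
    exact hD X hX h hhne hhX (FH H h) (sys_H h0 hh hr hA) A B hB hAB S hS hSc
  obtain ⟨z, K, X1, hUB⟩ := hU (r + 1) T (ht.trans hT)
  obtain ⟨C, hC, X2, hRAT⟩ := hR r K z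
  obtain ⟨C', hC', hSUM⟩ := hS r
  obtain ⟨cL, hcL, X3, hLB⟩ := hL r
  -- the constant
  obtain ⟨c, hc, hc1, hcc, hcG, hcV⟩ : ∃ c : ℝ, 0 < c ∧ c ≤ 1 ∧ 2 * C * C' * c ≤ c0 / 4 ∧
      c * (2 * C + 1) ≤ c0 / 2 ∧ c ≤ c0 / 2 * cL := by
    refine ⟨min 1 (min (c0 / 4 / (2 * C * C')) (min (c0 / 2 / (2 * C + 1)) (c0 / 2 * cL))),
      by positivity, min_le_left _ _, ?_, ?_, ?_⟩
    · have h1 : min 1 (min (c0 / 4 / (2 * C * C')) (min (c0 / 2 / (2 * C + 1)) (c0 / 2 * cL))) ≤
          c0 / 4 / (2 * C * C') := (min_le_right _ _).trans (min_le_left _ _)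
      rw [le_div_iff₀ (by positivity)] at h1
      linarith
    · have h1 : min 1 (min (c0 / 4 / (2 * C * C')) (min (c0 / 2 / (2 * C + 1)) (c0 / 2 * cL))) ≤
          c0 / 2 / (2 * C + 1) := (min_le_right _ _).trans ((min_le_right _ _).trans (min_le_left _ _))
      rwa [le_div_iff₀ (by positivity)] at h1
    · exact (min_le_right _ _).trans ((min_le_right _ _).trans (min_le_right _ _))
  refine ⟨c, hc, hc1, ?_⟩
  · intro θ hθ
    obtain ⟨X4, hX4⟩ := H1 θ hθ
    obtain ⟨X5, hX53, hX5⟩ := growth r (min (c0 / 4) 1 * cL * θ) (by positivity)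
    obtain ⟨X6, _, hX6⟩ := growth 0 θ hθ
    refine ⟨max X5 (max (max X1 X2) (max X3 (max X4 X6))), hX53.trans (le_max_left _ _), ?_⟩
    intro X hX H h0 hr hA h hh hhne M hM hHM A B hB hAB
    have hX5' : X5 ≤ X := (le_max_left _ _).trans hX
    have hXr : max (max X1 X2) (max X3 (max X4 X6)) ≤ X := (le_max_right _ _).trans hX
    have hX1' : X1 ≤ X := (le_max_left _ _).trans ((le_max_left _ _).trans hXr)
    have hX2' : X2 ≤ X := (le_max_right _ _).trans ((le_max_left _ _).trans hXr)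
    have hXs : max X3 (max X4 X6) ≤ X := (le_max_right _ _).trans hXr
    have hX3' : X3 ≤ X := (le_max_left _ _).trans hXs
    have hX4' : X4 ≤ X := (le_max_left _ _).trans ((le_max_right _ _).trans hXs)
    have hX6' : X6 ≤ X := (le_max_right _ _).trans ((le_max_right _ _).trans hXs)
    have hX3 : 3 ≤ X := hX53.trans hX5'
    have hXR : (3 : ℝ) ≤ X := by exact_mod_cast hX3
    have hX0 : (0 : ℝ) < X := by linarith
    have hlog : 1 ≤ Real.log X := by
      rw [Real.le_log_iff_exp_le (by linarith)]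
      exact Real.exp_one_lt_three.le.trans hXR
    have hlog0 : 0 < Real.log X := by linarith
    have hlogX : Real.log X ≤ X := (Real.log_le_sub_one_of_pos hX0).trans (by linarith)
    have hs0 : 0 ≤ √(X : ℝ) := Real.sqrt_nonneg _
    -- the length of the interval
    have hlen : √(X : ℝ) ≤ (B : ℝ) - A := by
      have := hX6 X hX6'
      rw [pow_zero, mul_one] at this
      have h1 : √(X : ℝ) ≤ (2 * Real.log X + 2) * √(X : ℝ) := by
        nlinarith
      linarith
    set L : ℝ := (B : ℝ) - A with hLdef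
    have hL0 : 0 < L := lt_of_lt_of_le (by positivity) hAB
    -- the sieve product
    have hV := hLB X hX3' H hr hA
    set W : ℝ := VP H 0 X with hW
    have hW0 : 0 < W := lt_of_lt_of_le (by positivity) hV
    have hWr : cL / Real.log X ^ r ≤ W := by
      refine le_trans ?_ hV
      apply div_le_div_of_nonneg_left hcL.le (by positivity)
      exact pow_le_pow_right₀ hlog hr
    have hsmall : (2 * Real.log X + 2) * √(X : ℝ) ≤ min (c0 / 4) 1 * (L * W) := by
      have h1 := hX5 X hX5'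
      have h2 : cL ≤ W * Real.log X ^ r := by
        rwa [div_le_iff₀ (by positivity)] at hWr
      have h3 : (2 * Real.log X + 2) * √(X : ℝ) * Real.log X ^ r ≤
          min (c0 / 4) 1 * (L * W) * Real.log X ^ r := by
        refine h1.trans ?_
        have hm : 0 < min (c0 / 4) 1 := by positivity
        calc min (c0 / 4) 1 * cL * θ * X = min (c0 / 4) 1 * (cL * (θ * X)) := by ring
          _ ≤ min (c0 / 4) 1 * ((W * Real.log X ^ r) * L) := by
              gcongr
          _ = min (c0 / 4) 1 * (L * W) * Real.log X ^ r := by ring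
      exact le_of_mul_le_mul_right h3 (by positivity)
    have hs4 : (2 * Real.log X + 2) * √(X : ℝ) ≤ c0 / 4 * (L * W) :=
      hsmall.trans (mul_le_mul_of_nonneg_right (min_le_left _ _) (by positivity))
    have hs1 : √(X : ℝ) ≤ L * W := by
      have h1 : √(X : ℝ) ≤ (2 * Real.log X + 2) * √(X : ℝ) := by nlinarith
      have h2 : min (c0 / 4) 1 * (L * W) ≤ 1 * (L * W) :=
        mul_le_mul_of_nonneg_right (min_le_right _ _) (by positivity)
      linarith
    -- the shifts
    have hMlog : (M : ℝ) ≤ Real.log X := by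
      nlinarith
    have hhX : |h| ≤ X := by
      have h1 := hHM h hh
      have h2 : (M : ℝ) ≤ X := hMlog.trans hlogX
      have h3 : M ≤ X := by exact_mod_cast h2
      exact h1.trans (by exact_mod_cast h3)
    -- Chen
    have hG : c0 * L * W ≤ ((GH t X A B H h).card : ℝ) := by
      have := hX4 X hX4' h hhne hhX (FH H h) (sys_H h0 hh hr hA) A B hB hAB
      rw [V_eq h0 hh] at this
      exact this
    -- the sieve
    obtain ⟨y, hyX, hXy, hub⟩ := hUB X hX1'
    obtain ⟨hrat1, hrat2⟩ := hRAT X hX2' y hyX hXy H hr hA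
    -- upper bound for `GH`
    have hGup : ((GH t X A B H h).card : ℝ) ≤ (2 * C + 1) * (L * W) := by
      have h1 : ((GH t X A B H h).card : ℝ) ≤
          (((Ioc A B).filter (fun n : ℕ => ∀ g ∈ H, Rg T X (n + g))).card : ℝ) := by
        rw [Nat.cast_le]
        apply card_le_card
        intro p hp
        exact mem_filter.2 ⟨GH_sub hp, fun g hg => Rg_mono ht hT (by omega) (GH_rough hp g hg)⟩
      have h2 := hub A B hB hlen H (by omega)
      have h3 : 2 * (L * VP H z y) ≤ 2 * (L * (C * W)) := by gcongr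
      have h4 : 2 * (L * (C * W)) = 2 * C * (L * W) := by ring
      linarith
    -- the bad sets
    set J : Finset ℤ := Icc (-(M : ℤ)) M \ H with hJ
    have hbad : ∀ j ∈ J, (((GH t X A B H h).filter (fun p : ℕ => Rg T X (p + j))).card : ℝ) ≤
        2 * C * (L * W) / Real.log X * (∏ g ∈ H, hK 2 (j - g)) + √(X : ℝ) := by
      intro j hj
      have hjH : j ∉ H := (Finset.mem_sdiff.1 hj).2
      have h1 : (((GH t X A B H h).filter (fun p : ℕ => Rg T X (p + j))).card : ℝ) ≤
          (((Ioc A B).filter (fun n : ℕ => ∀ g ∈ insert j H, Rg T X (n + g))).card : ℝ) := by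
        rw [Nat.cast_le]
        apply card_le_card
        intro p hp
        rw [mem_filter] at hp
        refine mem_filter.2 ⟨GH_sub hp.1, fun g hg => ?_⟩
        rw [mem_insert] at hg
        rcases hg with rfl | hg
        · exact hp.2
        · exact Rg_mono ht hT (by omega) (GH_rough hp.1 g hg)
      have h2 := hub A B hB hlen (insert j H) ((card_insert_le _ _).trans (by omega))
      have h3 := hrat2 j hjH
      have h4 : 2 * (L * VP (insert j H) z y) ≤
          2 * (L * (C / Real.log X * W * ∏ g ∈ H, hK 2 (j - g))) := by gcongr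
      have h5 : 2 * (L * (C / Real.log X * W * ∏ g ∈ H, hK 2 (j - g))) =
          2 * C * (L * W) / Real.log X * (∏ g ∈ H, hK 2 (j - g)) := by ring
      linarith
    have hJc : ((J.card : ℕ) : ℝ) ≤ 2 * Real.log X + 2 := by
      have h1 : J.card ≤ 2 * M + 1 := by
        refine (card_le_card sdiff_subset).trans ?_
        rw [Int.card_Icc]
        omega
      have h2 : (J.card : ℝ) ≤ 2 * M + 1 := by exact_mod_cast h1
      linarith
    have hbsum : ∑ j ∈ J, (((GH t X A B H h).filter (fun p : ℕ => Rg T X (p + j))).card : ℝ) ≤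
        c0 / 2 * (L * W) := by
      have h1 := sum_le_sum hbad
      rw [sum_add_distrib, ← mul_sum, sum_const, nsmul_eq_mul] at h1
      have h2 := hSUM M H h0 hr hHM
      have h3 : 2 * C * (L * W) / Real.log X * ∑ j ∈ J, ∏ g ∈ H, hK 2 (j - g) ≤
          2 * C * (L * W) / Real.log X * (C' * (c * Real.log X)) := by
        have : 0 ≤ 2 * C * (L * W) / Real.log X := by positivity
        refine mul_le_mul_of_nonneg_left (h2.trans ?_) this
        gcongr
      have h4 : 2 * C * (L * W) / Real.log X * (C' * (c * Real.log X)) =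
          2 * C * C' * c * (L * W) := by
        field_simp
      have h5 : 2 * C * C' * c * (L * W) ≤ c0 / 4 * (L * W) :=
        mul_le_mul_of_nonneg_right hcc (by positivity)
      have h6 : (J.card : ℝ) * √(X : ℝ) ≤ (2 * Real.log X + 2) * √(X : ℝ) :=
        mul_le_mul_of_nonneg_right hJc hs0
      linarith
    -- what remains
    have hrem : ((GH t X A B H h).card : ℝ) ≤ ((SH t T X A B M H h).card : ℝ) +
        ∑ j ∈ J, (((GH t X A B H h).filter (fun p : ℕ => Rg T X (p + j))).card : ℝ) := by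
      have h1 : GH t X A B H h ⊆ SH t T X A B M H h ∪
          J.biUnion (fun j => (GH t X A B H h).filter (fun p : ℕ => Rg T X (p + j))) := by
        intro p hp
        by_cases hpS : p ∈ SH t T X A B M H h
        · exact mem_union_left _ hpS
        · apply mem_union_right
          unfold SH at hpS
          rw [mem_filter] at hpS
          push Not at hpS
          obtain ⟨j, hj1, hj2, hj3⟩ := hpS hp
          rw [mem_biUnion]
          refine ⟨j, ?_, mem_filter.2 ⟨hp, hj2⟩⟩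
          rw [hJ, Finset.mem_sdiff, Finset.mem_Icc]
          exact ⟨abs_le.1 hj1, hj3⟩
      have h2 := (card_le_card h1).trans ((card_union_le _ _).trans
        (Nat.add_le_add_left card_biUnion_le _))
      exact_mod_cast h2
    have hSlow : c0 / 2 * (L * W) ≤ ((SH t T X A B M H h).card : ℝ) := by
      have : c0 * L * W = c0 * (L * W) := by ring
      linarith
    refine ⟨?_, ?_⟩
    · refine le_trans ?_ hSlow
      have h1 : c * L / Real.log X ^ H.card ≤ c0 / 2 * cL * L / Real.log X ^ H.card := by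
        gcongr
      have h2 : c0 / 2 * cL * L / Real.log X ^ H.card = c0 / 2 * (L * (cL / Real.log X ^ H.card)) := by
        ring
      have h3 : c0 / 2 * (L * (cL / Real.log X ^ H.card)) ≤ c0 / 2 * (L * W) := by gcongr
      linarith
    · refine le_trans ?_ hSlow
      have h1 : c * ((GH t X A B H h).card : ℝ) ≤ c * ((2 * C + 1) * (L * W)) := by gcongr
      have h2 : c * ((2 * C + 1) * (L * W)) = c * (2 * C + 1) * (L * W) := by ring
      have h3 : c * (2 * C + 1) * (L * W) ≤ c0 / 2 * (L * W) :=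
        mul_le_mul_of_nonneg_right hcG (by positivity)
      linarith

end Pool.Agent.K3h54.CP
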