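import Pool.Agent.K3h54.CP.Stm
import Pool.Agent.Helper923.HMertens

/-!
# Project CP: the lower bound for the sieve product (brick LB, by helper87)
-/

set_option autoImplicit false

open Finset

namespace Pool.Agent.K3h87.CP

open Pool.Agent.K3h54.CP

theorem om_le (H : Finset ℤ) (q : ℕ) : om H q ≤ H.card := by
  unfold om
  have hsub : (range q).filter (fun m : ℕ => ∃ g ∈ H, (q : ℤ) ∣ m + g) ⊆
      H.image fun g => ((-g) % (q : ℤ)).toNat := by
    intro m hm
    rw [mem_filter, mem_range] at hm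
    obtain ⟨hmq, g, hg, hd⟩ := hm
    rw [mem_image]
    refine ⟨g, hg, ?_⟩
    have h1 : (-g) ≡ (m : ℤ) [ZMOD (q : ℤ)] := by
      rw [Int.modEq_iff_dvd]
      simpa using hd
    have h2 : (-g) % (q : ℤ) = (m : ℤ) := by
      have h3 : (-g) % (q : ℤ) = (m : ℤ) % (q : ℤ) := h1
      rw [h3]
      exact Int.emod_eq_of_lt (by positivity) (by exact_mod_cast hmq)
    rw [h2]
    simp
  exact (card_le_card hsub).trans card_image_le

theorem exp_le_one_sub {x : ℝ} (h1 : x ≤ 1 / 2) :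
    Real.exp (-x - 2 * x ^ 2) ≤ 1 - x := by
  have hpos : 0 < 1 - x := by linarith
  rw [← Real.le_log_iff_exp_le hpos]
  refine le_trans ?_ (Real.one_sub_inv_le_log_of_pos hpos)
  have h2 : 1 - (1 - x)⁻¹ - (-x - 2 * x ^ 2) = x ^ 2 * (1 - 2 * x) / (1 - x) := by
    field_simp
    ring
  have h3 : 0 ≤ x ^ 2 * (1 - 2 * x) / (1 - x) :=
    div_nonneg (mul_nonneg (sq_nonneg _) (by linarith)) hpos.le
  linarith

theorem fac_ge {H : Finset ℤ} (hA : Ad H) {q : ℕ} (hq : q.Prime) :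
    1 / (q : ℝ) ≤ 1 - (om H q : ℝ) / q := by
  have hq0 : (0 : ℝ) < q := by exact_mod_cast hq.pos
  have h1 : (om H q : ℝ) + 1 ≤ q := by exact_mod_cast hA q hq
  rw [div_le_iff₀ hq0, sub_mul, div_mul_cancel₀ _ hq0.ne']
  linarith

end Pool.Agent.K3h87.CP

namespace Pool.Agent.K3h54.CP

open Pool.Agent.K3h87.CP

theorem t_LB : S_LB := by
  intro r
  obtain ⟨C, hC0, hC⟩ := Pool.Agent.Helper923.HMertens.mertens_ratio
  set s : ℕ := 2 * r + 3 with hs
  have hs0 : (0 : ℝ) < s := by rw [hs]; positivity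
  have hs3 : (3 : ℝ) ≤ s := by rw [hs]; push_cast; linarith [(Nat.cast_nonneg r : (0 : ℝ) ≤ r)]
  have hlog : 1 ≤ Real.log s := by
    rw [Real.le_log_iff_exp_le hs0]
    linarith [Real.exp_one_lt_d9]
  refine ⟨(1 / (s : ℝ)) ^ s * Real.exp (-(r * C) - 2 * r ^ 2), by positivity, s, fun X hX H hH hA => ?_⟩
  have hXs : (s : ℝ) ≤ X := by exact_mod_cast hX
  have hlX : 1 ≤ Real.log X := hlog.trans (Real.log_le_log hs0 hXs)
  set k := H.card with hk
  have hkr : (k : ℝ) ≤ r := by exact_mod_cast hH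
  have hk0 : (0 : ℝ) ≤ k := by positivity
  have hsplit : VP H 0 X = (∏ q ∈ (Ioc 0 s).filter Nat.Prime, (1 - (om H q : ℝ) / q)) *
      ∏ q ∈ (Ioc s X).filter Nat.Prime, (1 - (om H q : ℝ) / q) := by
    unfold VP
    rw [← prod_union]
    · refine prod_congr ?_ fun _ _ => rfl
      rw [← filter_union, Ioc_union_Ioc_eq_Ioc (by omega) hX]
    · rw [disjoint_left]
      intro q h1 h2
      rw [mem_filter, mem_Ioc] at h1 h2
      omega
  have hfirst : (1 / (s : ℝ)) ^ s ≤ ∏ q ∈ (Ioc 0 s).filter Nat.Prime, (1 - (om H q : ℝ) / q) := by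
    have h1 : ((Ioc 0 s).filter Nat.Prime).card ≤ s := by
      refine (card_filter_le _ _).trans ?_
      simp
    calc (1 / (s : ℝ)) ^ s ≤ (1 / (s : ℝ)) ^ ((Ioc 0 s).filter Nat.Prime).card :=
          pow_le_pow_of_le_one (by positivity) (by
            rw [div_le_one hs0]
            linarith) h1
      _ = ∏ _q ∈ (Ioc 0 s).filter Nat.Prime, 1 / (s : ℝ) := by rw [prod_const]
      _ ≤ _ := by
          refine prod_le_prod (fun _ _ => by positivity) fun q hq => ?_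
          rw [mem_filter, mem_Ioc] at hq
          refine le_trans ?_ (fac_ge hA hq.2)
          have hq0 : (0 : ℝ) < q := by exact_mod_cast hq.2.pos
          exact one_div_le_one_div_of_le hq0 (by exact_mod_cast hq.1.2)
  have hsecond : Real.exp (-(k * ∑ q ∈ (Ioc s X).filter Nat.Prime, (1 : ℝ) / q) - 2 * k ^ 2) ≤
      ∏ q ∈ (Ioc s X).filter Nat.Prime, (1 - (om H q : ℝ) / q) := by
    have h1 : ∀ q ∈ (Ioc s X).filter Nat.Prime,
        Real.exp (-(k / q) - 2 * (k / q) ^ 2) ≤ 1 - (om H q : ℝ) / q := by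
      intro q hq
      rw [mem_filter, mem_Ioc] at hq
      have hq0 : (0 : ℝ) < q := by exact_mod_cast hq.2.pos
      have h2 : (k : ℝ) / q ≤ 1 / 2 := by
        rw [div_le_div_iff₀ hq0 (by norm_num)]
        have h3 : (2 * r + 3 : ℝ) ≤ q := by exact_mod_cast hq.1.1.le
        linarith
      refine (exp_le_one_sub h2).trans ?_
      have h4 : (om H q : ℝ) / q ≤ k / q := by
        gcongr
        exact_mod_cast om_le H q
      linarith
    have h2 : ∏ q ∈ (Ioc s X).filter Nat.Prime, Real.exp (-((k : ℝ) / q) - 2 * (k / q) ^ 2) ≤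
        ∏ q ∈ (Ioc s X).filter Nat.Prime, (1 - (om H q : ℝ) / q) :=
      prod_le_prod (fun _ _ => (Real.exp_pos _).le) h1
    refine le_trans ?_ h2
    rw [← Real.exp_sum]
    refine Real.exp_le_exp.2 ?_
    rw [sum_sub_distrib, sum_neg_distrib]
    have h3 : ∑ q ∈ (Ioc s X).filter Nat.Prime, (k : ℝ) / q =
        k * ∑ q ∈ (Ioc s X).filter Nat.Prime, (1 : ℝ) / q := by
      rw [mul_sum]
      exact sum_congr rfl fun q _ => by ring
    have h4 : ∑ q ∈ (Ioc s X).filter Nat.Prime, 2 * ((k : ℝ) / q) ^ 2 ≤ 2 * (k : ℝ) ^ 2 := by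
      have h5 : ∑ q ∈ (Ioc s X).filter Nat.Prime, 2 * ((k : ℝ) / q) ^ 2 ≤
          ∑ q ∈ Ioc s X, 2 * ((k : ℝ) / q) ^ 2 :=
        sum_le_sum_of_subset_of_nonneg (filter_subset _ _) fun _ _ _ => by positivity
      have h6 : ∑ q ∈ Ioc s X, 2 * ((k : ℝ) / q) ^ 2 = 2 * k ^ 2 * ∑ q ∈ Ioc s X, ((q : ℝ) ^ 2)⁻¹ := by
        rw [mul_sum]
        exact sum_congr rfl fun q _ => by rw [div_pow]; ring
      have h7 : ∑ q ∈ Ioc s X, ((q : ℝ) ^ 2)⁻¹ ≤ 1 := by
        refine (sum_Ioc_inv_sq_le_sub (by omega : s ≠ 0) hX).trans ?_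
        have h8 : (s : ℝ)⁻¹ ≤ 1 := inv_le_one_of_one_le₀ (by linarith)
        have h9 : (0 : ℝ) ≤ (X : ℝ)⁻¹ := by positivity
        linarith
      rw [h6] at h5
      refine h5.trans ?_
      have h10 : (0 : ℝ) ≤ 2 * (k : ℝ) ^ 2 := by positivity
      nlinarith
    rw [h3]
    linarith
  have hmer : ∑ q ∈ (Ioc s X).filter Nat.Prime, (1 : ℝ) / q ≤ Real.log (Real.log X) + C := by
    have h1 := (abs_le.1 (hC s X (by omega) hX)).2
    have h2 : Real.log (Real.log X / Real.log s) ≤ Real.log (Real.log X) :=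
      Real.log_le_log (by positivity) (div_le_self (by linarith) hlog)
    have h3 : C / Real.log s ≤ C := div_le_self hC0 hlog
    linarith
  have hexp : Real.exp (-(r * C) - 2 * r ^ 2) / Real.log X ^ k ≤
      Real.exp (-(k * ∑ q ∈ (Ioc s X).filter Nat.Prime, (1 : ℝ) / q) - 2 * k ^ 2) := by
    have h1 : Real.log X ^ k = Real.exp (k * Real.log (Real.log X)) := by
      rw [mul_comm, Real.exp_mul, Real.exp_log (by linarith), Real.rpow_natCast]
    rw [h1, ← Real.exp_sub]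
    refine Real.exp_le_exp.2 ?_
    have h2 : (k : ℝ) * ∑ q ∈ (Ioc s X).filter Nat.Prime, (1 : ℝ) / q ≤
        k * (Real.log (Real.log X) + C) := mul_le_mul_of_nonneg_left hmer hk0
    have h3 : (k : ℝ) * C ≤ r * C := mul_le_mul_of_nonneg_right hkr hC0
    have h4 : (k : ℝ) ^ 2 ≤ r ^ 2 := pow_le_pow_left₀ hk0 hkr 2
    linarith
  rw [hsplit]
  calc (1 / (s : ℝ)) ^ s * Real.exp (-(r * C) - 2 * r ^ 2) / Real.log X ^ k =
        (1 / (s : ℝ)) ^ s * (Real.exp (-(r * C) - 2 * r ^ 2) / Real.log X ^ k) := by ring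
    _ ≤ _ := mul_le_mul hfirst (hexp.trans hsecond) (by positivity)
      ((by positivity : (0 : ℝ) ≤ (1 / (s : ℝ)) ^ s).trans hfirst)

end Pool.Agent.K3h54.CP
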