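import Pool.Agent.K3h54.CP.Stm
import Pool.Agent.Y843.HG.VGold

/-!
# Project CP, brick RAT: the sieve product of `H ∪ {j}` (helper51)
-/

set_option autoImplicit false

open Finset

namespace Pool.Agent.K3h51.RAT

open Pool.Agent.K3h54.CP

/-- the primes in `(a, b]` -/
def P (a b : ℕ) : Finset ℕ := (Ioc a b).filter Nat.Prime

lemma mem_P {a b q : ℕ} : q ∈ P a b ↔ (a < q ∧ q ≤ b) ∧ q.Prime := by
  unfold P
  rw [mem_filter, mem_Ioc]

lemma prod_split (f : ℕ → ℝ) {a b c : ℕ} (hab : a ≤ b) (hbc : b ≤ c) :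
    ∏ q ∈ P a c, f q = (∏ q ∈ P a b, f q) * ∏ q ∈ P b c, f q := by
  rw [← prod_union]
  · apply prod_congr _ fun _ _ => rfl
    ext q
    rw [mem_union, mem_P, mem_P, mem_P]
    constructor
    · rintro ⟨⟨h1, h2⟩, h3⟩
      rcases le_or_gt q b with h | h
      · exact Or.inl ⟨⟨h1, h⟩, h3⟩
      · exact Or.inr ⟨⟨h, h2⟩, h3⟩
    · rintro (⟨⟨h1, h2⟩, h3⟩ | ⟨⟨h1, h2⟩, h3⟩)
      · exact ⟨⟨h1, by omega⟩, h3⟩
      · exact ⟨⟨by omega, h2⟩, h3⟩
  · rw [disjoint_left]
    intro q h1 h2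
    rw [mem_P] at h1 h2
    omega

lemma om_le (H : Finset ℤ) (q : ℕ) : om H q ≤ q := by
  unfold om
  exact (card_filter_le _ _).trans (card_range q).le

lemma om_le_card (H : Finset ℤ) (q : ℕ) : om H q ≤ H.card := by
  unfold om
  have h1 : (range q).filter (fun m : ℕ => ∃ g ∈ H, (q : ℤ) ∣ m + g) ⊆
      H.image (fun g => ((-g) % (q : ℤ)).toNat) := by
    intro m hm
    rw [mem_filter, mem_range] at hm
    obtain ⟨hm1, g, hg, hm2⟩ := hm
    rw [mem_image]
    refine ⟨g, hg, ?_⟩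
    have h2 : (-g) % (q : ℤ) = m := by
      have h3 : (-g) % (q : ℤ) = (m : ℤ) % (q : ℤ) := by
        apply Int.ModEq.symm
        rw [Int.modEq_iff_dvd]
        have h4 : -g - (m : ℤ) = -((m : ℤ) + g) := by ring
        rw [h4]
        exact (dvd_neg).2 hm2
      rw [h3]
      exact Int.emod_eq_of_lt (by positivity) (by exact_mod_cast hm1)
    rw [h2]
    simp
  exact (card_le_card h1).trans card_image_le

lemma om_mono {H H' : Finset ℤ} (h : H ⊆ H') (q : ℕ) : om H q ≤ om H' q := by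
  unfold om
  apply card_le_card
  intro m hm
  rw [mem_filter] at hm ⊢
  obtain ⟨h1, g, hg, h2⟩ := hm
  exact ⟨h1, g, h hg, h2⟩

lemma om_succ {H : Finset ℤ} {j : ℤ} {q : ℕ} (hq : 0 < q) (h : ∀ g ∈ H, ¬ (q : ℤ) ∣ j - g) :
    om H q + 1 ≤ om (insert j H) q := by
  classical
  unfold om
  set m₀ : ℕ := ((-j) % (q : ℤ)).toNat with hm₀
  have hq0 : (q : ℤ) ≠ 0 := by exact_mod_cast hq.ne'
  have h1 : (m₀ : ℤ) = (-j) % (q : ℤ) := Int.toNat_of_nonneg (Int.emod_nonneg _ hq0)
  have h2 : m₀ < q := by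
    have := Int.emod_lt_of_pos (-j) (show (0 : ℤ) < q by exact_mod_cast hq)
    rw [← h1] at this
    exact_mod_cast this
  have h3 : (q : ℤ) ∣ m₀ + j := by
    have h4 : (m₀ : ℤ) + j = -(-j - (-j) % (q : ℤ)) := by rw [h1]; ring
    rw [h4, dvd_neg]
    exact Int.dvd_self_sub_emod
  have h5 : m₀ ∉ (range q).filter (fun m : ℕ => ∃ g ∈ H, (q : ℤ) ∣ m + g) := by
    intro hm
    rw [mem_filter] at hm
    obtain ⟨-, g, hg, h6⟩ := hm
    apply h g hg
    have h7 : j - g = ((m₀ : ℤ) + j) - (m₀ + g) := by ring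
    rw [h7]
    exact dvd_sub h3 h6
  rw [← card_insert_of_notMem h5]
  apply card_le_card
  intro m hm
  rw [mem_insert] at hm
  rw [mem_filter]
  rcases hm with rfl | hm
  · exact ⟨mem_range.2 h2, j, mem_insert_self _ _, h3⟩
  · rw [mem_filter] at hm
    obtain ⟨h6, g, hg, h7⟩ := hm
    exact ⟨h6, g, mem_insert_of_mem hg, h7⟩

lemma fac_nonneg (H : Finset ℤ) {q : ℕ} (hq : 0 < q) : 0 ≤ 1 - (om H q : ℝ) / q := by
  have hq0 : (0 : ℝ) < q := by exact_mod_cast hq
  rw [sub_nonneg, div_le_one hq0]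
  exact_mod_cast om_le H q

lemma VP_eq (H : Finset ℤ) (a b : ℕ) : VP H a b = ∏ q ∈ P a b, (1 - (om H q : ℝ) / q) := rfl

lemma VP_nonneg (H : Finset ℤ) (a b : ℕ) : 0 ≤ VP H a b := by
  rw [VP_eq]
  exact prod_nonneg fun q hq => fac_nonneg H (mem_P.1 hq).2.pos

/-- the product of the `1 - 1/q` -/
noncomputable def W (a b : ℕ) : ℝ := ∏ q ∈ P a b, (1 - 1 / (q : ℝ))

lemma one_sub_pos {q : ℕ} (hq : q.Prime) : 0 < 1 - 1 / (q : ℝ) := by
  have h2 : (2 : ℝ) ≤ q := by exact_mod_cast hq.two_le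
  have : 1 / (q : ℝ) ≤ 1 / 2 := by
    apply one_div_le_one_div_of_le (by norm_num) h2
  linarith

lemma W_pos (a b : ℕ) : 0 < W a b := prod_pos fun q hq => one_sub_pos (mem_P.1 hq).2

lemma exp_bound {s : ℝ} (h0 : 0 ≤ s) (h1 : s ≤ 1 / 2) : Real.exp (-(2 * s)) ≤ 1 - s := by
  have h2 : 2 * s + 1 ≤ Real.exp (2 * s) := Real.add_one_le_exp _
  rw [Real.exp_neg, inv_le_comm₀ (Real.exp_pos _) (by linarith)]
  refine le_trans ?_ h2
  rw [inv_le_comm₀ (by linarith) (by linarith), ← one_div, div_le_iff₀ (by linarith)]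
  nlinarith

lemma pow_bound {q r : ℕ} (hq : 0 < q) (h : 2 * r ≤ q) :
    (1 - 1 / (q : ℝ)) ^ (2 * r) ≤ 1 - (r : ℝ) / q := by
  have hq0 : (0 : ℝ) < q := by exact_mod_cast hq
  have hq1 : (1 : ℝ) ≤ q := by exact_mod_cast hq
  have h1 : 0 ≤ 1 - 1 / (q : ℝ) := by
    rw [sub_nonneg, div_le_one hq0]
    exact hq1
  have h2 : 1 - 1 / (q : ℝ) ≤ Real.exp (-(1 / (q : ℝ))) := by
    have := Real.add_one_le_exp (-(1 / (q : ℝ)))
    linarith
  have h3 : (r : ℝ) / q ≤ 1 / 2 := by
    rw [div_le_div_iff₀ hq0 (by norm_num)]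
    have : ((2 * r : ℕ) : ℝ) ≤ q := by exact_mod_cast h
    push_cast at this
    linarith
  calc (1 - 1 / (q : ℝ)) ^ (2 * r) ≤ Real.exp (-(1 / (q : ℝ))) ^ (2 * r) := by gcongr
    _ = Real.exp (-(2 * ((r : ℝ) / q))) := by
        rw [← Real.exp_nat_mul]
        congr 1
        push_cast
        ring
    _ ≤ 1 - (r : ℝ) / q := exp_bound (by positivity) h3

/-- one factor -/
lemma fac_insert (H : Finset ℤ) (j : ℤ) {q : ℕ} (hq : q.Prime) :
    1 - (om (insert j H) q : ℝ) / q ≤ (1 - (om H q : ℝ) / q) * (1 - 1 / (q : ℝ)) *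
      ∏ g ∈ H, if (q : ℤ) ∣ j - g then 1 + (2 : ℝ) / q else 1 := by
  have hq0 : (0 : ℝ) < q := by exact_mod_cast hq.pos
  have hq2 : (2 : ℝ) ≤ q := by exact_mod_cast hq.two_le
  have h0 := fac_nonneg H hq.pos
  have h1 := one_sub_pos hq
  have hfac : ∀ g : ℤ, (1 : ℝ) ≤ if (q : ℤ) ∣ j - g then 1 + (2 : ℝ) / q else 1 := by
    intro g
    split_ifs
    · have : (0 : ℝ) ≤ 2 / q := by positivity
      linarith
    · exact le_rfl
  by_cases h : ∃ g ∈ H, (q : ℤ) ∣ j - g
  · obtain ⟨g, hg, hgd⟩ := h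
    have h2 : (1 + (2 : ℝ) / q) ≤ ∏ g ∈ H, if (q : ℤ) ∣ j - g then 1 + (2 : ℝ) / q else 1 := by
      have h3 := mul_prod_erase H (fun g => if (q : ℤ) ∣ j - g then 1 + (2 : ℝ) / q else 1) hg
      rw [← h3]
      simp only [hgd, if_true]
      have h4 : (1 : ℝ) ≤ ∏ x ∈ H.erase g, if (q : ℤ) ∣ j - x then 1 + (2 : ℝ) / q else 1 := by
        have := prod_le_prod (s := H.erase g) (f := fun _ => (1 : ℝ))
          (g := fun x => if (q : ℤ) ∣ j - x then 1 + (2 : ℝ) / q else 1)
          (fun _ _ => zero_le_one) (fun x _ => hfac x)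
        rwa [prod_const_one] at this
      have h5 : (0 : ℝ) ≤ 1 + 2 / q := by positivity
      nlinarith
    have h3 : 1 - (om (insert j H) q : ℝ) / q ≤ 1 - (om H q : ℝ) / q := by
      have : ((om H q : ℕ) : ℝ) ≤ om (insert j H) q := by
        exact_mod_cast om_mono (subset_insert j H) q
      gcongr
    have h4 : (1 : ℝ) ≤ (1 - 1 / (q : ℝ)) * (1 + 2 / q) := by
      have : (1 - 1 / (q : ℝ)) * (1 + 2 / q) = 1 + (1 / q) * (1 - 2 / q) := by
        field_simp
        ring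
      rw [this]
      have h5 : (0 : ℝ) ≤ 1 - 2 / q := by
        rw [sub_nonneg, div_le_one hq0]
        exact hq2
      have h6 : (0 : ℝ) ≤ 1 / q * (1 - 2 / q) := by positivity
      linarith
    calc 1 - (om (insert j H) q : ℝ) / q ≤ (1 - (om H q : ℝ) / q) * 1 := by rw [mul_one]; exact h3
      _ ≤ (1 - (om H q : ℝ) / q) * ((1 - 1 / (q : ℝ)) * (1 + 2 / q)) := by gcongr
      _ = (1 - (om H q : ℝ) / q) * (1 - 1 / (q : ℝ)) * (1 + 2 / q) := by ring
      _ ≤ _ := by
          apply mul_le_mul_of_nonneg_left h2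
          exact mul_nonneg h0 h1.le
  · push Not at h
    have h2 : (∏ g ∈ H, if (q : ℤ) ∣ j - g then 1 + (2 : ℝ) / q else 1) = 1 :=
      prod_eq_one fun g hg => by rw [if_neg (h g hg)]
    rw [h2, mul_one]
    have h3 : ((om H q : ℕ) : ℝ) + 1 ≤ om (insert j H) q := by
      exact_mod_cast om_succ hq.pos h
    have h4 : ((om H q : ℝ) + 1) / q ≤ (om (insert j H) q : ℝ) / q := by gcongr
    have h5 : (1 - (om H q : ℝ) / q) * (1 - 1 / (q : ℝ)) =
        1 - ((om H q : ℝ) + 1) / q + (om H q : ℝ) / q * (1 / q) := by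
      field_simp
      ring
    have h6 : (0 : ℝ) ≤ (om H q : ℝ) / q * (1 / q) := by positivity
    rw [h5]
    linarith

/-- the product of the additional factors -/
lemma prod_hK {H : Finset ℤ} {j : ℤ} (hj : j ∉ H) (z y : ℕ) :
    ∏ q ∈ P z y, ∏ g ∈ H, (if (q : ℤ) ∣ j - g then 1 + (2 : ℝ) / q else 1) ≤
      ∏ g ∈ H, hK 2 (j - g) := by
  classical
  rw [prod_comm]
  apply prod_le_prod
  · intro g _
    apply prod_nonneg
    intro q _
    split_ifs <;> positivity
  intro g hg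
  have hne : j - g ≠ 0 := by
    intro h
    apply hj
    rw [sub_eq_zero.1 h]
    exact hg
  unfold hK
  rw [← prod_filter]
  have h1 : (P z y).filter (fun q : ℕ => (q : ℤ) ∣ j - g) =
      ((j - g).natAbs.primeFactors).filter (fun q => z < q ∧ q ≤ y) := by
    ext q
    rw [mem_filter, mem_filter, mem_P, Nat.mem_primeFactors]
    constructor
    · rintro ⟨⟨h1, h2⟩, h3⟩
      exact ⟨⟨h2, Int.natCast_dvd.1 h3, Int.natAbs_ne_zero.2 hne⟩, h1⟩
    · rintro ⟨⟨h1, h2, -⟩, h3⟩
      exact ⟨⟨h3, h1⟩, Int.natCast_dvd.2 h2⟩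
  rw [h1, prod_filter]
  apply prod_le_prod
  · intro q _
    split_ifs <;> positivity
  · intro q _
    push_cast
    split_ifs
    · exact le_rfl
    · have : (0 : ℝ) ≤ 2 / q := by positivity
      linarith

end Pool.Agent.K3h51.RAT

namespace Pool.Agent.K3h54.CP

open Pool.Agent.K3h51.RAT Pool.Agent.Y843.HG

/-- (RAT) -/
theorem t_RAT : S_RAT := by
  intro r K z
  obtain ⟨c, C, hc, hC, hV⟩ := V1_bounds
  have hV1 : ∀ y, V1 y = W 0 y := fun y => rfl
  -- the constants
  set c₂ : ℝ := (c / (C * (K + 1))) ^ (2 * r) with hc₂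
  set c₃ : ℝ := ∏ q ∈ P 0 z, 1 / (q : ℝ) with hc₃
  have hc₂0 : 0 < c₂ := by positivity
  have hc₃0 : 0 < c₃ := prod_pos fun q hq => by
    have : (0 : ℝ) < q := by exact_mod_cast (mem_P.1 hq).2.pos
    positivity
  set A : ℝ := 1 / (c₃ * c₂) with hA
  set B : ℝ := C * (K + 1) / W 0 z with hB
  have hA0 : 0 < A := by positivity
  have hB0 : 0 < B := by
    have := W_pos 0 z
    positivity
  refine ⟨A + A * B, by positivity, (z + 2 * r + 2) ^ K + 2, fun X hX y hyX hXy H hH hAd => ?_⟩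
  have hy : z + 2 * r + 2 ≤ y := by
    by_contra h
    rw [not_le] at h
    have h1 : y ^ K ≤ (z + 2 * r + 2) ^ K := Nat.pow_le_pow_left h.le K
    omega
  have hX2 : 2 ≤ X := by omega
  have hy2 : 2 ≤ y := by omega
  have hlX : 0 < Real.log X := Real.log_pos (by exact_mod_cast hX2)
  have hly : 0 < Real.log y := Real.log_pos (by exact_mod_cast hy2)
  have hlog : Real.log X ≤ (K + 1) * Real.log y := by
    have h1 : Real.log X ≤ Real.log ((y : ℝ) ^ K) := by
      apply Real.log_le_log (by positivity)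
      exact_mod_cast hXy
    rw [Real.log_pow] at h1
    linarith
  -- the middle range
  have hW : c / (C * (K + 1)) ≤ W y X := by
    have h1 : W 0 X = W 0 y * W y X := prod_split _ (Nat.zero_le y) hyX
    have h2 := (hV X hX2).1
    have h3 := (hV y hy2).2
    rw [hV1] at h2 h3
    rw [h1] at h2
    have h4 := W_pos y X
    have h5 : c / Real.log X ≤ C / Real.log y * W y X := h2.trans (by gcongr)
    rw [div_le_iff₀ (by positivity)]
    rw [div_le_iff₀ hlX] at h5
    have h6 : C / Real.log y * W y X * Real.log X ≤ C / Real.log y * W y X * ((K + 1) * Real.log y) := by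
      gcongr
    have h7 : C / Real.log y * W y X * ((K + 1) * Real.log y) = W y X * (C * (K + 1)) := by
      field_simp
    linarith
  have hVy : c₂ ≤ VP H y X := by
    have h1 : W y X ^ (2 * r) ≤ VP H y X := by
      rw [VP_eq, W, ← prod_pow]
      apply prod_le_prod
      · intro q hq
        have := one_sub_pos (mem_P.1 hq).2
        positivity
      · intro q hq
        rw [mem_P] at hq
        have hq0 : (0 : ℝ) < q := by exact_mod_cast hq.2.pos
        refine (pow_bound hq.2.pos (by omega : 2 * r ≤ q)).trans ?_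
        have : ((om H q : ℕ) : ℝ) ≤ r := by exact_mod_cast (om_le_card H q).trans hH
        gcongr
    refine le_trans ?_ h1
    rw [hc₂]
    gcongr
  have hVz : c₃ ≤ VP H 0 z := by
    rw [VP_eq, hc₃]
    apply prod_le_prod
    · intro q _
      positivity
    · intro q hq
      rw [mem_P] at hq
      have hq0 : (0 : ℝ) < q := by exact_mod_cast hq.2.pos
      have h1 : ((om H q : ℕ) : ℝ) + 1 ≤ q := by exact_mod_cast hAd q hq.2
      rw [le_sub_iff_add_le, ← add_div, div_le_one hq0]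
      linarith
  have hsplit : VP H 0 X = VP H 0 z * VP H z y * VP H y X := by
    rw [VP_eq, VP_eq, VP_eq, VP_eq, prod_split _ (Nat.zero_le y) hyX,
      prod_split _ (Nat.zero_le z) (by omega : z ≤ y)]
  have h0 := VP_nonneg H z y
  have hfirst : VP H z y ≤ A * VP H 0 X := by
    rw [hsplit, hA]
    have h1 : c₃ * VP H z y * c₂ ≤ VP H 0 z * VP H z y * VP H y X := by
      gcongr
      exact mul_nonneg (hc₃0.le.trans hVz) h0
    rw [one_div, inv_mul_eq_div, le_div_iff₀ (by positivity)]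
    linarith
  have hV0 := VP_nonneg H 0 X
  refine ⟨?_, ?_⟩
  · have : 0 ≤ A * B * VP H 0 X := by positivity
    linarith [hfirst, add_mul A (A * B) (VP H 0 X)]
  · intro j hj
    have hWz : W z y ≤ B / Real.log X := by
      have h1 : W 0 y = W 0 z * W z y := prod_split _ (Nat.zero_le z) (by omega)
      have h3 := (hV y hy2).2
      rw [hV1, h1] at h3
      have h4 := W_pos 0 z
      rw [hB, div_div, le_div_iff₀ (by positivity)]
      rw [le_div_iff₀ hly] at h3
      have h5 : W z y * (W 0 z * Real.log X) ≤ W z y * (W 0 z * ((K + 1) * Real.log y)) := by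
        have := W_pos z y
        gcongr
      have h6 : W z y * (W 0 z * ((K + 1) * Real.log y)) =
          (K + 1) * (W 0 z * W z y * Real.log y) := by ring
      have h7 : ((K : ℝ) + 1) * (W 0 z * W z y * Real.log y) ≤ (K + 1) * C := by gcongr
      linarith
    have hprod : VP (insert j H) z y ≤ VP H z y * W z y * ∏ g ∈ H, hK 2 (j - g) := by
      have h1 : VP (insert j H) z y ≤ ∏ q ∈ P z y, ((1 - (om H q : ℝ) / q) * (1 - 1 / (q : ℝ)) *
          ∏ g ∈ H, if (q : ℤ) ∣ j - g then 1 + (2 : ℝ) / q else 1) := by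
        rw [VP_eq]
        apply prod_le_prod
        · intro q hq
          exact fac_nonneg _ (mem_P.1 hq).2.pos
        · intro q hq
          exact fac_insert H j (mem_P.1 hq).2
      rw [prod_mul_distrib, prod_mul_distrib] at h1
      refine h1.trans ?_
      rw [VP_eq, W]
      apply mul_le_mul_of_nonneg_left (prod_hK hj z y)
      exact mul_nonneg h0 (W_pos z y).le
    have hK0 : 0 ≤ ∏ g ∈ H, hK 2 (j - g) := by
      apply prod_nonneg
      intro g _
      unfold hK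
      exact prod_nonneg fun q _ => by positivity
    calc VP (insert j H) z y ≤ VP H z y * W z y * ∏ g ∈ H, hK 2 (j - g) := hprod
      _ ≤ (A * VP H 0 X) * (B / Real.log X) * ∏ g ∈ H, hK 2 (j - g) := by
          have := W_pos z y
          gcongr
      _ = A * B / Real.log X * VP H 0 X * ∏ g ∈ H, hK 2 (j - g) := by ring
      _ ≤ (A + A * B) / Real.log X * VP H 0 X * ∏ g ∈ H, hK 2 (j - g) := by
          gcongr
          linarith

end Pool.Agent.K3h54.CP
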