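import Pool.Agent.K3h54.CP.Stm

/-!
Brick SUM of the project CP (written by helper41).
-/

set_option autoImplicit false

open Finset

namespace Pool.Agent.K3h41.CP

open Pool.Agent.K3h54.CP

theorem pow_le {x : ℝ} (h0 : 0 ≤ x) (h1 : x ≤ 1) (r : ℕ) :
    (1 + x) ^ r ≤ 1 + (2 ^ r - 1) * x := by
  induction r with
  | zero => simp
  | succ r ih =>
    have h2 : (1 : ℝ) ≤ 2 ^ r := one_le_pow₀ (by norm_num)
    have h3 : (2 ^ r - 1) * (x * x) ≤ (2 ^ r - 1) * x :=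
      mul_le_mul_of_nonneg_left (by nlinarith) (by linarith)
    calc (1 + x) ^ (r + 1) = (1 + x) ^ r * (1 + x) := pow_succ _ _
      _ ≤ (1 + (2 ^ r - 1) * x) * (1 + x) := mul_le_mul_of_nonneg_right ih (by linarith)
      _ = 1 + 2 ^ r * x + (2 ^ r - 1) * (x * x) := by ring
      _ ≤ 1 + 2 ^ r * x + (2 ^ r - 1) * x := by linarith
      _ = 1 + (2 ^ (r + 1) - 1) * x := by ring

theorem hK_one_le (K : ℕ) (n : ℤ) : 1 ≤ hK K n := by
  unfold hK
  have h : ∀ p ∈ n.natAbs.primeFactors, (1 : ℝ) ≤ 1 + (K : ℝ) / p := by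
    intro p _
    have : (0 : ℝ) ≤ (K : ℝ) / p := by positivity
    linarith
  calc (1 : ℝ) = ∏ p ∈ n.natAbs.primeFactors, (1 : ℝ) := by simp
    _ ≤ _ := Finset.prod_le_prod (fun _ _ => zero_le_one) h

theorem hK_pow_le (r : ℕ) (n : ℤ) : hK 2 n ^ r ≤ hK (2 ^ (r + 1)) n := by
  unfold hK
  rw [← Finset.prod_pow]
  apply Finset.prod_le_prod
  · intro p _
    positivity
  · intro p hp
    have hp2 : (2 : ℝ) ≤ p := by exact_mod_cast (Nat.prime_of_mem_primeFactors hp).two_le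
    have hp0 : (0 : ℝ) < p := by linarith
    have h1 : ((2 : ℕ) : ℝ) / p ≤ 1 := by
      rw [div_le_one hp0]
      exact_mod_cast hp2
    have h0 : (0 : ℝ) ≤ ((2 : ℕ) : ℝ) / p := by positivity
    refine (pow_le h0 h1 r).trans ?_
    have h2 : (2 ^ r - 1) * (((2 : ℕ) : ℝ) / p) ≤ 2 ^ r * (((2 : ℕ) : ℝ) / p) :=
      mul_le_mul_of_nonneg_right (by linarith) h0
    have h3 : (2 : ℝ) ^ r * (((2 : ℕ) : ℝ) / p) = ((2 ^ (r + 1) : ℕ) : ℝ) / p := by
      push_cast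
      rw [pow_succ]
      ring
    linarith

theorem moment (K N : ℕ) : ∑ n ∈ Ioc 0 N, ∏ p ∈ n.primeFactors, (1 + (K : ℝ) / p) ≤
    N * Real.exp (2 * K) := by
  classical
  set P := (Ioc 0 N).filter Nat.Prime with hP
  have h1 : ∀ n ∈ Ioc 0 N, ∏ p ∈ n.primeFactors, (1 + (K : ℝ) / p) =
      ∑ T ∈ P.powerset, if (∏ p ∈ T, p) ∣ n then ∏ p ∈ T, ((K : ℝ) / p) else 0 := by
    intro n hn
    have hn' := Finset.mem_Ioc.1 hn
    rw [Finset.prod_one_add, ← Finset.sum_filter]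
    refine Finset.sum_congr ?_ fun _ _ => rfl
    ext T
    rw [mem_powerset, mem_filter, mem_powerset]
    constructor
    · intro hT
      refine ⟨fun p hp => ?_, ?_⟩
      · have h2 := Nat.mem_primeFactors.1 (hT hp)
        rw [hP, mem_filter, mem_Ioc]
        exact ⟨⟨h2.1.pos, (Nat.le_of_dvd hn'.1 h2.2.1).trans hn'.2⟩, h2.1⟩
      · exact Finset.prod_primes_dvd n (fun p hp => (Nat.mem_primeFactors.1 (hT hp)).1.prime)
          (fun p hp => (Nat.mem_primeFactors.1 (hT hp)).2.1)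
    · rintro ⟨hT, hd⟩ p hp
      have h2 := hT hp
      rw [hP, mem_filter] at h2
      exact Nat.mem_primeFactors.2 ⟨h2.2, (Finset.dvd_prod_of_mem _ hp).trans hd, by omega⟩
  rw [Finset.sum_congr rfl h1, Finset.sum_comm]
  have h2 : ∀ T ∈ P.powerset,
      (∑ n ∈ Ioc 0 N, if (∏ p ∈ T, p) ∣ n then ∏ p ∈ T, ((K : ℝ) / p) else 0) ≤
        N * ∏ p ∈ T, ((K : ℝ) / (p : ℝ) ^ 2) := by
    intro T hT
    have hT' := mem_powerset.1 hT
    rw [← Finset.sum_filter, Finset.sum_const, nsmul_eq_mul, Nat.Ioc_filter_dvd_card_eq_div]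
    have h3 : ((N / ∏ p ∈ T, p : ℕ) : ℝ) ≤ N / ∏ p ∈ T, (p : ℝ) := by
      have := @Nat.cast_div_le ℝ _ _ _ N (∏ p ∈ T, p)
      push_cast at this
      exact this
    have h4 : (0 : ℝ) ≤ ∏ p ∈ T, ((K : ℝ) / p) := Finset.prod_nonneg fun p _ => by positivity
    refine (mul_le_mul_of_nonneg_right h3 h4).trans (le_of_eq ?_)
    rw [div_mul_eq_mul_div, mul_div_assoc, ← Finset.prod_div_distrib]
    congr 1
    refine Finset.prod_congr rfl fun p _ => ?_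
    rw [div_div, pow_two]
  refine (Finset.sum_le_sum h2).trans ?_
  rw [← Finset.mul_sum, ← Finset.prod_one_add]
  refine mul_le_mul_of_nonneg_left ?_ (Nat.cast_nonneg _)
  have h3 : ∏ p ∈ P, (1 + (K : ℝ) / (p : ℝ) ^ 2) ≤ Real.exp (∑ p ∈ P, (K : ℝ) / (p : ℝ) ^ 2) := by
    rw [Real.exp_sum]
    refine Finset.prod_le_prod (fun p _ => by positivity) fun p _ => ?_
    rw [add_comm]
    exact Real.add_one_le_exp _
  refine h3.trans (Real.exp_le_exp.2 ?_)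
  have h4 : ∑ p ∈ P, (K : ℝ) / (p : ℝ) ^ 2 = K * ∑ p ∈ P, ((p : ℝ) ^ 2)⁻¹ := by
    rw [Finset.mul_sum]
    rfl
  rw [h4]
  have h5 : ∑ p ∈ P, ((p : ℝ) ^ 2)⁻¹ ≤ ∑ p ∈ Ioo 0 (N + 1), ((p : ℝ) ^ 2)⁻¹ := by
    refine Finset.sum_le_sum_of_subset_of_nonneg ?_ fun p _ _ => by positivity
    intro p hp
    rw [hP, mem_filter, mem_Ioc] at hp
    rw [mem_Ioo]
    omega
  have h6 := sum_Ioo_inv_sq_le (α := ℝ) 0 (N + 1)
  have h7 : ∑ p ∈ P, ((p : ℝ) ^ 2)⁻¹ ≤ 2 := by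
    refine h5.trans (h6.trans ?_)
    norm_num
  have h8 := mul_le_mul_of_nonneg_left h7 (Nat.cast_nonneg K (α := ℝ))
  linarith

theorem sum_sym (L : ℕ) (f : ℕ → ℝ) (hf : ∀ n, 0 ≤ f n) (A : Finset ℤ)
    (hA : ∀ n ∈ A, n ≠ 0 ∧ |n| ≤ L) : ∑ n ∈ A, f n.natAbs ≤ 2 * ∑ n ∈ Ioc 0 L, f n := by
  classical
  have h1 : A ⊆ (Ioc 0 L).image (fun n : ℕ => (n : ℤ)) ∪ (Ioc 0 L).image (fun n : ℕ => -(n : ℤ)) := by
    intro n hn
    obtain ⟨h1, h2⟩ := hA n hn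
    rw [mem_union, mem_image, mem_image]
    have h3 := abs_le.1 h2
    rcases lt_or_gt_of_ne h1 with h | h
    · right
      refine ⟨n.natAbs, mem_Ioc.2 ⟨by omega, by omega⟩, by omega⟩
    · left
      refine ⟨n.natAbs, mem_Ioc.2 ⟨by omega, by omega⟩, by omega⟩
  refine (Finset.sum_le_sum_of_subset_of_nonneg h1 fun n _ _ => hf _).trans ?_
  have h2 : ∑ n ∈ (Ioc 0 L).image (fun n : ℕ => (n : ℤ)) ∪
      (Ioc 0 L).image (fun n : ℕ => -(n : ℤ)), f n.natAbs ≤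
      ∑ n ∈ (Ioc 0 L).image (fun n : ℕ => (n : ℤ)), f n.natAbs +
      ∑ n ∈ (Ioc 0 L).image (fun n : ℕ => -(n : ℤ)), f n.natAbs := by
    rw [← Finset.sum_union_inter]
    have : 0 ≤ ∑ n ∈ (Ioc 0 L).image (fun n : ℕ => (n : ℤ)) ∩
      (Ioc 0 L).image (fun n : ℕ => -(n : ℤ)), f n.natAbs := Finset.sum_nonneg fun n _ => hf _
    linarith
  refine h2.trans (le_of_eq ?_)
  rw [Finset.sum_image (fun a _ b _ h => by simpa using h),
    Finset.sum_image (fun a _ b _ h => by simpa using h), two_mul]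
  congr 1
  exact Finset.sum_congr rfl fun n _ => by rw [Int.natAbs_neg, Int.natAbs_natCast]

theorem prod_le_sum (H : Finset ℤ) (hH : H.Nonempty) (r : ℕ) (hr : H.card ≤ r) (a : ℤ → ℝ)
    (ha : ∀ g, 1 ≤ a g) : ∏ g ∈ H, a g ≤ ∑ g ∈ H, a g ^ r := by
  classical
  obtain ⟨g₀, hg₀, hmax⟩ := Finset.exists_max_image H a hH
  have h1 : ∏ g ∈ H, a g ≤ ∏ _g ∈ H, a g₀ :=
    Finset.prod_le_prod (fun g _ => by linarith [ha g]) fun g hg => hmax g hg
  rw [Finset.prod_const] at h1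
  have h2 : a g₀ ^ H.card ≤ a g₀ ^ r := pow_le_pow_right₀ (ha g₀) hr
  have h3 : a g₀ ^ r ≤ ∑ g ∈ H, a g ^ r :=
    Finset.single_le_sum (f := fun g => a g ^ r)
      (fun g _ => pow_nonneg (by linarith [ha g]) r) hg₀
  exact h1.trans (h2.trans h3)

end Pool.Agent.K3h41.CP

namespace Pool.Agent.K3h54.CP

open Pool.Agent.K3h41.CP

theorem t_SUM : S_SUM := by
  intro r
  classical
  refine ⟨r * (4 * Real.exp (2 * ((2 ^ (r + 1) : ℕ) : ℝ))) + 1, by positivity, ?_⟩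
  intro M H h0 hr hM
  set K : ℕ := 2 ^ (r + 1) with hK'
  have hne : H.Nonempty := ⟨0, h0⟩
  have h1 : ∀ j ∈ Icc (-(M : ℤ)) M \ H, ∏ g ∈ H, hK 2 (j - g) ≤ ∑ g ∈ H, hK K (j - g) := by
    intro j _
    refine (prod_le_sum H hne r hr (fun g => hK 2 (j - g)) fun g => hK_one_le _ _).trans ?_
    exact Finset.sum_le_sum fun g _ => hK_pow_le r _
  refine (Finset.sum_le_sum h1).trans ?_
  rw [Finset.sum_comm]
  have h2 : ∀ g ∈ H, ∑ j ∈ Icc (-(M : ℤ)) M \ H, hK K (j - g) ≤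
      4 * Real.exp (2 * (K : ℝ)) * M := by
    intro g hg
    have h3 : ∑ j ∈ Icc (-(M : ℤ)) M \ H, hK K (j - g) =
        ∑ n ∈ (Icc (-(M : ℤ)) M \ H).image (fun j => j - g),
          (fun n : ℕ => ∏ p ∈ n.primeFactors, (1 + (K : ℝ) / p)) n.natAbs := by
      rw [Finset.sum_image (fun a _ b _ h => by simpa using h)]
      rfl
    rw [h3]
    refine (sum_sym (2 * M) (fun n : ℕ => ∏ p ∈ n.primeFactors, (1 + (K : ℝ) / p))
      (fun n => Finset.prod_nonneg fun p _ => by positivity) _ ?_).trans ?_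
    · intro n hn
      obtain ⟨j, hj, rfl⟩ := mem_image.1 hn
      rw [mem_sdiff, mem_Icc] at hj
      have h4 := abs_le.1 (hM g hg)
      refine ⟨fun h => hj.2 ?_, ?_⟩
      · have : j = g := by omega
        rw [this]
        exact hg
      · rw [abs_le]
        push_cast
        constructor <;> omega
    · have h4 := moment K (2 * M)
      push_cast at h4
      linarith
  refine (Finset.sum_le_sum h2).trans ?_
  rw [Finset.sum_const, nsmul_eq_mul]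
  have h3 : (H.card : ℝ) ≤ r := by exact_mod_cast hr
  have h4 : (0 : ℝ) ≤ 4 * Real.exp (2 * (K : ℝ)) * M := by positivity
  have h5 := mul_le_mul_of_nonneg_right h3 h4
  have h6 : (0 : ℝ) ≤ M := Nat.cast_nonneg _
  nlinarith

end Pool.Agent.K3h54.CP
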