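import Pool.Agent.K3h54.CP.Fin

/-!
# Project CP: the sets of hits
-/

set_option autoImplicit false

open Finset Filter

namespace Pool.Agent.K3h54.CP

/-- for every prime `q` some `n` is such that `q` divides no `n + g`, `g ∈ H` -/
def Admissible (H : Finset ℤ) : Prop := ∀ q : ℕ, q.Prime → ∃ n : ℤ, ∀ g ∈ H, ¬ (q : ℤ) ∣ n + g

/-- `n` is a prime or a product of two primes, all of them `> X ^ (1/9)` -/
def P2 (X : ℕ) (n : ℤ) : Prop := ∃ a b : ℕ, a.Prime ∧ (b = 1 ∨ b.Prime) ∧ n = a * b ∧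
  (X : ℝ) ^ (1 / 9 : ℝ) < a ∧ (b = 1 ∨ (X : ℝ) ^ (1 / 9 : ℝ) < b)

/-- `p` is prime, `p + h` is in `P2`, and the `p + g`, `g ∈ H`, are exactly the rough numbers at distance
at most `c log X` from `p` -/
def Hit (t : ℕ) (c : ℝ) (X : ℕ) (H : Finset ℤ) (h : ℤ) (p : ℕ) : Prop :=
  p.Prime ∧ P2 X (p + h) ∧ ∀ j : ℤ, |(j : ℝ)| ≤ c * Real.log X → (Rg t X (p + j) ↔ j ∈ H)

open Classical in
/-- the hits -/
noncomputable def hits (t : ℕ) (c : ℝ) (X : ℕ) (H : Finset ℤ) (h : ℤ) (A B : ℕ) : Finset ℕ :=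
  (Ioc A B).filter (Hit t c X H h)

lemma Ad_of {H : Finset ℤ} (hA : Admissible H) : Ad H := by
  intro q hq
  obtain ⟨n, hn⟩ := hA q hq
  have hq0 : (0 : ℤ) < q := by exact_mod_cast hq.pos
  unfold om
  have h1 : (range q).filter (fun m : ℕ => ∃ g ∈ H, (q : ℤ) ∣ m + g) ⊂ range q := by
    rw [filter_ssubset]
    refine ⟨(n % q).toNat, ?_, ?_⟩
    · rw [mem_range]
      have := Int.emod_lt_of_pos n hq0
      omega
    · rintro ⟨g, hg, hd⟩
      apply hn g hg
      have h2 : (((n % q).toNat : ℕ) : ℤ) = n % q := Int.toNat_of_nonneg (Int.emod_nonneg _ hq0.ne')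
      rw [h2] at hd
      have h3 : n + g = (n % q + g) + q * (n / q) := by
        have := Int.emod_add_mul_ediv n q
        linarith
      rw [h3]
      exact dvd_add hd (Dvd.intro _ rfl)
  have h2 := card_lt_card h1
  rwa [card_range] at h2

/-- the hits are the remaining primes -/
lemma hits_eq {t : ℕ} {c : ℝ} {X M A B : ℕ} {H : Finset ℤ} {h : ℤ} (hc : 0 < c)
    (hlog : 0 ≤ Real.log X)
    (hM : M = ⌊c * Real.log X⌋₊) (h0 : 0 ∈ H) (hh : h ∈ H)
    (hHM : ∀ g ∈ H, |g| ≤ M) (hX : c * Real.log X + 1 < (X : ℝ) ^ (1 / (t : ℝ))) :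
    hits t c X H h A B = SH t t X A B M H h := by
  classical
  have hcl : 0 ≤ c * Real.log X := by positivity
  have hMl : (M : ℝ) ≤ c * Real.log X := by
    rw [hM]
    exact Nat.floor_le hcl
  have hj : ∀ j : ℤ, |(j : ℝ)| ≤ c * Real.log X ↔ |j| ≤ M := by
    intro j
    have e : |(j : ℝ)| = ((j.natAbs : ℕ) : ℝ) := by
      rw [Nat.cast_natAbs, Int.cast_abs]
    rw [e, hM, Int.abs_eq_natAbs, ← Nat.le_floor_iff hcl]
    exact_mod_cast Iff.rfl
  ext p
  unfold hits SH GH Pool.Agent.R463.CG.G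
  rw [mem_filter, mem_filter, mem_filter]
  have hpos : (X : ℝ) ^ (1 / (t : ℝ)) < p → 1 < (p : ℤ) + h := by
    intro hpX
    have h1 : ((|h| : ℤ) : ℝ) ≤ M := by exact_mod_cast hHM h hh
    have h2 : -(|h| : ℤ) ≤ h := neg_abs_le h
    have h3 : (-(|h| : ℤ) : ℝ) ≤ h := by exact_mod_cast h2
    have h4 : (1 : ℝ) < (p : ℝ) + h := by linarith
    exact_mod_cast h4
  constructor
  · rintro ⟨hpI, hpp, ⟨a, b, ha, hb, hab, haX, hbX⟩, hall⟩
    have hro : ∀ g ∈ H, Rg t X (p + g) := fun g hg => (hall g ((hj g).2 (hHM g hg))).2 hg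
    have hpX : (X : ℝ) ^ (1 / (t : ℝ)) < p := by
      by_contra hcon
      push Not at hcon
      exact hro 0 h0 p hpp hcon (by simp)
    refine ⟨⟨hpI, hpp, hpX, ?_, ?_, ?_, ?_⟩, fun j hjM hr => (hall j ((hj j).2 hjM)).1 hr⟩
    · have := hpos hpX
      rw [one_mul]
      omega
    · rw [one_mul, hab]
      have e : ((a : ℤ) * (b : ℤ)).natAbs = a * b := by
        rw [Int.natAbs_mul, Int.natAbs_natCast, Int.natAbs_natCast]
      rw [e]
      rcases hb with rfl | hb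
      · rw [mul_one, Nat.primeFactorsList_prime ha]
        simp
      · have h1 := (Nat.perm_primeFactorsList_mul ha.ne_zero hb.ne_zero).length_eq
        rw [h1, List.length_append, Nat.primeFactorsList_prime ha, Nat.primeFactorsList_prime hb]
        simp
    · intro q hq hd
      rw [one_mul] at hd
      refine ⟨?_, ?_⟩
      · rw [hab] at hd
        have h1 : q ∣ a * b := by exact_mod_cast hd
        rcases (Nat.Prime.dvd_mul hq).1 h1 with h2 | h2
        · rw [(Nat.prime_dvd_prime_iff_eq hq ha).1 h2]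
          exact haX
        · rcases hb with rfl | hb
          · exact absurd (Nat.dvd_one.1 h2) hq.one_lt.ne'
          · rw [(Nat.prime_dvd_prime_iff_eq hq hb).1 h2]
            rcases hbX with rfl | hbX
            · exact absurd hb Nat.not_prime_one
            · exact hbX
      · by_contra hcon
        push Not at hcon
        exact hro h hh q hq hcon hd
    · intro q hq hqX a ha hd
      unfold FH at ha
      rw [mem_image] at ha
      obtain ⟨g, hg, rfl⟩ := ha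
      exact hro g (mem_of_mem_erase (mem_of_mem_erase hg)) q hq hqX (by simpa using hd)
  · rintro ⟨⟨hpI, hpp, hpX, hne, hlen, hq1, hq2⟩, hall⟩
    have hmem : p ∈ GH t X A B H h := by
      unfold GH Pool.Agent.R463.CG.G
      exact mem_filter.2 ⟨hpI, hpp, hpX, hne, hlen, hq1, hq2⟩
    rw [one_mul] at hne hlen
    simp only [one_mul] at hq1
    refine ⟨hpI, hpp, ?_, fun j hjl => ⟨fun hr => hall j ((hj j).1 hjl) hr,
      fun hjH => GH_rough hmem j hjH⟩⟩
    have h1 := hpos hpX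
    obtain ⟨n, hn⟩ : ∃ n : ℕ, (p : ℤ) + h = n := ⟨((p : ℤ) + h).toNat, (Int.toNat_of_nonneg (by omega)).symm⟩
    rw [hn] at hlen hq1 h1 ⊢
    rw [Int.natAbs_natCast] at hlen
    have hn1 : 1 < n := by exact_mod_cast h1
    have hprod := Nat.prod_primeFactorsList (show n ≠ 0 by omega)
    have hpr : ∀ q ∈ n.primeFactorsList, q.Prime ∧ (X : ℝ) ^ (1 / 9 : ℝ) < q := by
      intro q hq
      have h2 := Nat.prime_of_mem_primeFactorsList hq
      exact ⟨h2, (hq1 q h2 (by exact_mod_cast Nat.dvd_of_mem_primeFactorsList hq)).1⟩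
    unfold P2
    match hl : n.primeFactorsList with
    | [] =>
      rw [hl] at hprod
      simp at hprod
      omega
    | [a] =>
      rw [hl] at hprod hpr
      refine ⟨a, 1, (hpr a (by simp)).1, Or.inl rfl, ?_, (hpr a (by simp)).2, Or.inl rfl⟩
      have : n = a := by simpa using hprod.symm
      rw [this]
      simp
    | [a, b] =>
      rw [hl] at hprod hpr
      refine ⟨a, b, (hpr a (by simp)).1, Or.inr (hpr b (by simp)).1, ?_, (hpr a (by simp)).2,
        Or.inr (hpr b (by simp)).2⟩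
      have : n = a * b := by simpa using hprod.symm
      rw [this]
      push_cast
      ring
    | a :: b :: d :: l =>
      rw [hl] at hlen
      simp at hlen

lemma big (t : ℕ) (ht : 1 ≤ t) : ∃ X₀ : ℕ, ∀ X : ℕ, X₀ ≤ X →
    Real.log X + 1 < (X : ℝ) ^ (1 / (t : ℝ)) := by
  have ht0 : (0 : ℝ) < 1 / t := by
    have : (0 : ℝ) < t := by exact_mod_cast ht
    positivity
  have h1 := (isLittleO_log_rpow_atTop ht0).bound (show (0 : ℝ) < 1 / 2 by norm_num)
  have h2 := (tendsto_rpow_atTop ht0).eventually (eventually_ge_atTop (4 : ℝ))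
  have h3 := (tendsto_natCast_atTop_atTop (R := ℝ)).eventually (h1.and h2)
  rw [eventually_atTop] at h3
  obtain ⟨X₀, h⟩ := h3
  refine ⟨max X₀ 1, fun X hX => ?_⟩
  obtain ⟨h4, h5⟩ := h X ((le_max_left _ _).trans hX)
  have hX1 : (1 : ℝ) ≤ X := by exact_mod_cast (le_max_right _ _).trans hX
  rw [Real.norm_of_nonneg (Real.log_nonneg hX1), Real.norm_of_nonneg (by positivity)] at h4
  linarith

/-- **The theorem** -/
theorem main (hS : S_SUM) (hR : S_RAT) (hU : S_UB) (hL : S_LB) (r : ℕ) :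
    ∃ t : ℕ, 1 ≤ t ∧ ∃ c : ℝ, 0 < c ∧ ∀ θ : ℝ, 0 < θ →
    (∃ X₀ : ℕ, ∀ X : ℕ, X₀ ≤ X → ∀ H : Finset ℤ, H.card ≤ r → Admissible H →
      (∀ g ∈ H, |(g : ℝ)| ≤ c * Real.log X) → 0 ∈ H → ∀ h ∈ H, h ≠ 0 →
      ∀ A B : ℕ, B ≤ X → θ * X ≤ (B : ℝ) - A →
        c * ((B : ℝ) - A) / Real.log X ^ H.card ≤ ((hits t c X H h A B).card : ℝ)) ∧
    (∀ k : ℕ, ∀ δ : ℝ, 0 < δ → ∃ D X₀ : ℕ, ∀ X : ℕ, X₀ ≤ X → ∀ H : Finset ℤ, H.card ≤ r →
      Admissible H → (∀ g ∈ H, |(g : ℝ)| ≤ c * Real.log X) → 0 ∈ H → ∀ h ∈ H, h ≠ 0 →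
      ∀ A B : ℕ, B ≤ X → θ * X ≤ (B : ℝ) - A → ∀ S : Finset ℕ, S ⊆ hits t c X H h A B →
        δ * ((hits t c X H h A B).card : ℝ) ≤ S.card →
        ∃ a d : ℕ, 1 ≤ d ∧ (d : ℝ) ≤ Real.log X ^ D ∧ ∀ j < k, a + j * d ∈ S) := by
  classical
  obtain ⟨t, ht, H1', H2⟩ := core hS hR hU hL r
  obtain ⟨c, hc, hc1, H1⟩ := H1' t le_rfl
  obtain ⟨X1, hX1⟩ := big t ht
  have hbig : ∀ X : ℕ, max X1 1 ≤ X → 0 ≤ Real.log X ∧
      c * Real.log X + 1 < (X : ℝ) ^ (1 / (t : ℝ)) := by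
    intro X hX
    have h1 : (1 : ℝ) ≤ X := by exact_mod_cast (le_max_right _ _).trans hX
    have h2 := Real.log_nonneg h1
    refine ⟨h2, lt_of_le_of_lt ?_ (hX1 X ((le_max_left _ _).trans hX))⟩
    nlinarith
  have hM : ∀ X : ℕ, max X1 1 ≤ X → ∀ H : Finset ℤ, (∀ g ∈ H, |(g : ℝ)| ≤ c * Real.log X) →
      ((⌊c * Real.log X⌋₊ : ℕ) : ℝ) ≤ c * Real.log X ∧
      ∀ g ∈ H, |g| ≤ ((⌊c * Real.log X⌋₊ : ℕ) : ℤ) := by
    intro X hX H hH
    have hcl : 0 ≤ c * Real.log X := mul_nonneg hc.le (hbig X hX).1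
    refine ⟨Nat.floor_le hcl, fun g hg => ?_⟩
    have e : |(g : ℝ)| = ((g.natAbs : ℕ) : ℝ) := by
      rw [Nat.cast_natAbs, Int.cast_abs]
    have h1 := hH g hg
    rw [e, ← Nat.le_floor_iff hcl] at h1
    rw [Int.abs_eq_natAbs]
    exact_mod_cast h1
  refine ⟨t, ht, c, hc, fun θ hθ => ⟨?_, ?_⟩⟩
  · obtain ⟨X2, _, hX2⟩ := H1 θ hθ
    refine ⟨max X2 (max X1 1), ?_⟩
    intro X hX H hr hA hH h0 h hh hne A B hB hAB
    have hXa := (le_max_left _ _).trans hX
    have hXb := (le_max_right _ _).trans hX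
    obtain ⟨hm1, hm2⟩ := hM X hXb H hH
    have := (hX2 X hXa H h0 hr (Ad_of hA) h hh hne _ hm1 hm2 A B hB hAB).1
    rw [hits_eq hc (hbig X hXb).1 rfl h0 hh hm2 (hbig X hXb).2]
    exact this
  · intro k δ hδ
    obtain ⟨X2, _, hX2⟩ := H1 θ hθ
    obtain ⟨D, X3, hX3⟩ := H2 k θ (δ * c) hθ (by positivity)
    refine ⟨D, max (max X2 X3) (max X1 1), ?_⟩
    intro X hX H hr hA hH h0 h hh hne A B hB hAB S hS hSc
    have hXa : X2 ≤ X := (le_max_left _ _).trans ((le_max_left _ _).trans hX)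
    have hXc : X3 ≤ X := (le_max_right _ _).trans ((le_max_left _ _).trans hX)
    have hXb := (le_max_right _ _).trans hX
    obtain ⟨hm1, hm2⟩ := hM X hXb H hH
    have h2 := (hX2 X hXa H h0 hr (Ad_of hA) h hh hne _ hm1 hm2 A B hB hAB).2
    rw [hits_eq hc (hbig X hXb).1 rfl h0 hh hm2 (hbig X hXb).2] at hS hSc
    have hhX : |h| ≤ X := by
      have h3 := hm2 h hh
      have h4 : ((⌊c * Real.log X⌋₊ : ℕ) : ℝ) ≤ X := by
        refine hm1.trans ?_
        have hX1' : (1 : ℝ) ≤ X := by exact_mod_cast (le_max_right _ _).trans hXb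
        have h5 := Real.log_le_sub_one_of_pos (show (0 : ℝ) < X by linarith)
        have h6 := (hbig X hXb).1
        nlinarith
      have h7 : ⌊c * Real.log X⌋₊ ≤ X := by exact_mod_cast h4
      exact h3.trans (by exact_mod_cast h7)
    refine hX3 X hXc H h0 hr (Ad_of hA) h hh hne hhX A B hB hAB S ?_ ?_
    · refine hS.trans ?_
      unfold SH
      exact filter_subset _ _
    · calc δ * c * ((GH t X A B H h).card : ℝ) = δ * (c * ((GH t X A B H h).card : ℝ)) := by ring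
        _ ≤ δ * ((SH t t X A B ⌊c * Real.log X⌋₊ H h).card : ℝ) := by gcongr
        _ ≤ S.card := hSc

end Pool.Agent.K3h54.CP
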